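import Mathlib

/-!
# Ranks and simulations between relations on types in `Type`
-/

set_option autoImplicit false

namespace Run7.h626

open Ordinal Cardinal

variable {α β : Type}

/-- The rank of `a` for the relation `r` (zero if `a` is not accessible). -/
noncomputable def rk (r : α → α → Prop) (a : α) : Ordinal.{0} :=
  open Classical in if h : Acc r a then h.rank else 0

theorem rk_of_acc {r : α → α → Prop} {a : α} (h : Acc r a) : rk r a = h.rank := by
  rw [rk, dif_pos h]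

theorem rk_lt {r : α → α → Prop} {a b : α} (hb : Acc r b) (h : r a b) : rk r a < rk r b := by
  rw [rk_of_acc hb, rk_of_acc (hb.inv h)]
  exact hb.rank_lt_of_rel h

theorem exists_le_rk {r : α → α → Prop} {b : α} (hb : Acc r b) {o : Ordinal.{0}}
    (ho : o < rk r b) : ∃ a, r a b ∧ o ≤ rk r a := by
  rw [rk_of_acc hb, hb.rank_eq, Ordinal.lt_iSup_iff] at ho
  obtain ⟨⟨a, ha⟩, h⟩ := ho
  refine ⟨a, ha, ?_⟩
  rw [rk_of_acc (hb.inv ha)]
  exact Order.lt_succ_iff.1 h

theorem rk_le_of {r : α → α → Prop} {b : α} (hb : Acc r b) {o : Ordinal.{0}}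
    (h : ∀ a, r a b → rk r a < o) : rk r b ≤ o := by
  by_contra hc
  obtain ⟨a, ha, h1⟩ := exists_le_rk hb (not_le.1 hc)
  exact absurd (h a ha) (not_lt.2 h1)

theorem rk_lt_omega1 [Countable α] (r : α → α → Prop) (a : α) : rk r a < ω₁ := by
  by_cases h : Acc r a
  · induction h with
    | intro a ha ih =>
      have h0 : Acc r a := ⟨a, ha⟩
      rw [rk_of_acc h0, h0.rank_eq]
      apply Ordinal.iSup_lt_omega_one
      rintro ⟨b, hb⟩
      have := ih b hb
      rw [rk_of_acc (ha b hb)] at this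
      exact (isSuccLimit_omega 1).succ_lt this
  · rw [rk, dif_neg h]
    exact omega_pos 1

theorem exists_rk_eq {r : α → α → Prop} {b : α} (hb : Acc r b) {o : Ordinal.{0}}
    (ho : o ≤ rk r b) : ∃ a, Acc r a ∧ rk r a = o := by
  rw [rk_of_acc hb] at ho
  obtain ⟨a, ha, h⟩ := hb.mem_range_rank_of_le ho
  exact ⟨a, ha, by rw [rk_of_acc ha, h]⟩

/-- `(r, a)` is simulated by `(s, b)`. -/
def Sim (r : α → α → Prop) (a : α) (s : β → β → Prop) (b : β) : Prop :=
  ∃ G : α → β → Prop, G a b ∧ ∀ x y, G x y → ∀ x', r x' x → ∃ y', s y' y ∧ G x' y'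

theorem Sim.acc_and_le {r : α → α → Prop} {a : α} {s : β → β → Prop} {b : β}
    (h : Sim r a s b) (hb : Acc s b) : Acc r a ∧ rk r a ≤ rk s b := by
  obtain ⟨G, hab, hG⟩ := h
  induction hb generalizing a with
  | intro b hb ih =>
    have hacc : Acc r a := by
      refine ⟨a, fun x' hx' => ?_⟩
      obtain ⟨y', hy', hg⟩ := hG a b hab x' hx'
      exact (ih y' hy' hg).1
    refine ⟨hacc, rk_le_of hacc fun x' hx' => ?_⟩
    obtain ⟨y', hy', hg⟩ := hG a b hab x' hx'
    exact lt_of_le_of_lt (ih y' hy' hg).2 (rk_lt ⟨b, hb⟩ hy')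

theorem sim_of_rk_le {r : α → α → Prop} {a : α} {s : β → β → Prop} {b : β}
    (ha : Acc r a) (hb : Acc s b) (h : rk r a ≤ rk s b) : Sim r a s b := by
  refine ⟨fun x y => Acc r x ∧ Acc s y ∧ rk r x ≤ rk s y, ⟨ha, hb, h⟩, ?_⟩
  rintro x y ⟨hx, hy, hxy⟩ x' hx'
  obtain ⟨y', hy', h'⟩ := exists_le_rk hy (lt_of_lt_of_le (rk_lt hx hx') hxy)
  exact ⟨y', hy', hx.inv hx', hy.inv hy', h'⟩

theorem sim_iff {r : α → α → Prop} {a : α} {s : β → β → Prop} {b : β} (hb : Acc s b) :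
    Sim r a s b ↔ Acc r a ∧ rk r a ≤ rk s b :=
  ⟨fun h => h.acc_and_le hb, fun h => sim_of_rk_le h.1 hb h.2⟩

/-- Strict version: `(r, a)` is simulated by a child of `(s, b)`. -/
def SimLt (r : α → α → Prop) (a : α) (s : β → β → Prop) (b : β) : Prop :=
  ∃ b', s b' b ∧ Sim r a s b'

theorem simLt_iff {r : α → α → Prop} {a : α} {s : β → β → Prop} {b : β} (hb : Acc s b) :
    SimLt r a s b ↔ Acc r a ∧ rk r a < rk s b := by
  constructor
  · rintro ⟨b', hb', h⟩
    obtain ⟨h1, h2⟩ := h.acc_and_le (hb.inv hb')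
    exact ⟨h1, lt_of_le_of_lt h2 (rk_lt hb hb')⟩
  · rintro ⟨h1, h2⟩
    obtain ⟨b', hb', h⟩ := exists_le_rk hb h2
    exact ⟨b', hb', sim_of_rk_le h1 (hb.inv hb') h⟩

end Run7.h626
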