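import Mathlib
import Pool.Agent.Run7.h626.Rank

/-!
# Coanalytic subsets of Baire space as preimages of the set of well-founded trees
-/

set_option autoImplicit false

namespace Run7.h626

open Ordinal Cardinal MeasureTheory Set

/-- The tree on `ℕ` in which the parent of `n + 1` is `p n`: `R p m j` says that `m` is a child of
`j`. -/
def R (p : ℕ → ℕ) (m j : ℕ) : Prop := ∃ n, m = n + 1 ∧ p n = j

theorem R_succ {p : ℕ → ℕ} {n j : ℕ} : R p (n + 1) j ↔ p n = j := by
  constructor
  · rintro ⟨k, hk, rfl⟩
    have : n = k := by omega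
    rw [this]
  · rintro h
    exact ⟨n, rfl, h⟩

theorem not_R_zero {p : ℕ → ℕ} {j : ℕ} : ¬ R p 0 j := by
  rintro ⟨k, hk, -⟩
  omega

theorem R_lt {p : ℕ → ℕ} (hp : ∀ n, p n ≤ n) {m j : ℕ} (h : R p m j) : j < m := by
  obtain ⟨n, rfl, rfl⟩ := h
  exact Nat.lt_succ_of_le (hp n)

theorem acc_all {p : ℕ → ℕ} (hp : ∀ n, p n ≤ n) (h : Acc (R p) 0) (i : ℕ) : Acc (R p) i := by
  induction i using Nat.strong_induction_on with
  | _ i ih =>
    rcases i with _ | n
    · exact h
    · exact (ih (p n) (Nat.lt_succ_of_le (hp n))).inv (R_succ.2 rfl)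

theorem rk_le_zero {p : ℕ → ℕ} (hp : ∀ n, p n ≤ n) (h : Acc (R p) 0) (i : ℕ) :
    rk (R p) i ≤ rk (R p) 0 := by
  induction i using Nat.strong_induction_on with
  | _ i ih =>
    rcases i with _ | n
    · exact le_rfl
    · have h1 := acc_all hp h (p n)
      have h2 : rk (R p) (n + 1) < rk (R p) (p n) := rk_lt h1 (R_succ.2 rfl)
      exact h2.le.trans (ih (p n) (Nat.lt_succ_of_le (hp n)))

/-- A representation of `P` by trees. -/
structure Rep (P : Set (ℕ → ℕ)) where
  /-- `π z n` is the parent of `n + 1` in the tree of `z` -/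
  π : (ℕ → ℕ) → (ℕ → ℕ)
  le : ∀ z n, π z n ≤ n
  dep : ∀ z z' n, (∀ i ≤ n, z i = z' i) → π z n = π z' n
  mem : ∀ z, z ∈ P ↔ Acc (R (π z)) 0

/-- reversed initial segments -/
def pre (g : ℕ → ℕ) : ℕ → List ℕ
  | 0 => []
  | k + 1 => g k :: pre g k

@[simp] theorem length_pre (g : ℕ → ℕ) (k : ℕ) : (pre g k).length = k := by
  induction k with
  | zero => rfl
  | succ k ih => simp [pre, ih]

theorem pre_eq_pre {g g' : ℕ → ℕ} {k : ℕ} : pre g k = pre g' k ↔ ∀ i < k, g i = g' i := by
  induction k with
  | zero => simp [pre]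
  | succ k ih =>
    simp only [pre, List.cons.injEq, ih]
    constructor
    · rintro ⟨h1, h2⟩ i hi
      rcases Nat.lt_succ_iff_lt_or_eq.1 hi with h | rfl
      · exact h2 i h
      · exact h1
    · intro h
      exact ⟨h k (Nat.lt_succ_self k), fun i hi => h i (Nat.lt_succ_of_lt hi)⟩

/-- the node `u` is alive -/
def Alive (f : (ℕ → ℕ) → (ℕ → ℕ)) (z : ℕ → ℕ) (u : List ℕ) : Prop :=
  ∃ g, pre g u.length = u ∧ ∀ i < u.length, f g i = z i

theorem Alive.tail {f : (ℕ → ℕ) → (ℕ → ℕ)} {z : ℕ → ℕ} {a : ℕ} {u : List ℕ}
    (h : Alive f z (a :: u)) : Alive f z u := by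
  obtain ⟨g, hg, hf⟩ := h
  refine ⟨g, ?_, fun i hi => hf i ?_⟩
  · simp only [List.length_cons, pre, List.cons.injEq] at hg
    exact hg.2
  · simp only [List.length_cons]
    omega

open Encodable Denumerable

open Classical in
/-- The tree that represents the complement of the range of `f`. -/
noncomputable def repPi (f : (ℕ → ℕ) → (ℕ → ℕ)) (z : ℕ → ℕ) (v : ℕ) : ℕ :=
  if Alive f z (ofNat (List ℕ) (v + 1)) then v.unpair.2 else 0

theorem exists_rep_range (f : (ℕ → ℕ) → (ℕ → ℕ)) (hf : Continuous f) :
    ∃ r : Rep (range f)ᶜ, True := by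
  classical
  have hle : ∀ z n, repPi f z n ≤ n := by
    intro z n
    unfold repPi
    split_ifs
    · exact Nat.unpair_right_le n
    · exact Nat.zero_le _
  refine ⟨⟨repPi f, hle, ?_, ?_⟩, trivial⟩
  · intro z z' n h
    have hA : Alive f z (ofNat (List ℕ) (n + 1)) ↔ Alive f z' (ofNat (List ℕ) (n + 1)) := by
      have hlen : (ofNat (List ℕ) (n + 1)).length ≤ n + 1 := by
        have := length_le_encode (ofNat (List ℕ) (n + 1))
        rwa [encode_ofNat] at this
      constructor
      · rintro ⟨g, hg, hf⟩
        exact ⟨g, hg, fun i hi => by rw [hf i hi]; exact h i (by omega)⟩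
      · rintro ⟨g, hg, hf⟩
        exact ⟨g, hg, fun i hi => by rw [hf i hi]; exact (h i (by omega)).symm⟩
    unfold repPi
    simp only [hA]
  · intro z
    rw [mem_compl_iff, ← not_iff_not, not_not, not_acc_iff_exists_descending_chain]
    constructor
    · rintro ⟨g, rfl⟩
      refine ⟨fun k => encode (pre g k), by simp [pre], fun k => ?_⟩
      have h1 : encode (pre g (k + 1)) = Nat.pair (g k) (encode (pre g k)) + 1 := by
        simp [pre]
      show R _ (encode (pre g (k + 1))) (encode (pre g k))
      rw [h1, R_succ]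
      unfold repPi
      rw [if_pos]
      · simp
      · rw [← h1, ofNat_encode]
        exact ⟨g, by simp, fun i _ => rfl⟩
    · rintro ⟨c, hc0, hc⟩
      -- `c 0 = 0`, `c (k+1)` child of `c k`
      have hpos : ∀ k, c (k + 1) ≠ 0 := by
        intro k h
        have := hc k
        rw [h] at this
        exact not_R_zero this
      have hstep : ∀ k, ofNat (List ℕ) (c (k + 1)) ≠ [] ∧
          (k ≥ 1 → (ofNat (List ℕ) (c (k + 1))).tail = ofNat (List ℕ) (c k) ∧
            Alive f z (ofNat (List ℕ) (c (k + 1)))) := by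
        intro k
        obtain ⟨n, hn, hp⟩ := hc k
        constructor
        · rw [hn, list_ofNat_succ]
          simp
        · intro hk
          have hck : c k ≠ 0 := by
            obtain ⟨k', rfl⟩ : ∃ k', k = k' + 1 := ⟨k - 1, by omega⟩
            exact hpos k'
          unfold repPi at hp
          split_ifs at hp with hA
          · rw [hn]
            refine ⟨?_, hA⟩
            rw [list_ofNat_succ]
            simp only [List.tail_cons]
            rw [hp]
          · exact absurd hp.symm hck
      have hlen : ∀ k, (ofNat (List ℕ) (c (k + 1))).length = (ofNat (List ℕ) (c 1)).length + k := by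
        intro k
        induction k with
        | zero => rfl
        | succ k ih =>
          have h1 := (hstep (k + 1)).1
          have h2 := ((hstep (k + 1)).2 (by omega)).1
          have h3 : (ofNat (List ℕ) (c (k + 1 + 1))).length
              = (ofNat (List ℕ) (c (k + 1 + 1))).tail.length + 1 := by
            rw [List.length_tail]
            have := List.length_pos_iff.2 h1
            omega
          rw [h3, h2, ih]
          omega
      have hal : ∀ k, Alive f z (ofNat (List ℕ) (c (k + 1))) := by
        intro k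
        rcases k with _ | k
        · obtain ⟨h0, h1⟩ := hstep 1
          obtain ⟨h2, h4⟩ := h1 le_rfl
          obtain ⟨a, l, h3⟩ := List.exists_cons_of_ne_nil h0
          rw [h3] at h2 h4
          rw [List.tail_cons] at h2
          rw [zero_add, ← h2]
          exact h4.tail
        · exact ((hstep (k + 1)).2 (by omega)).2
      choose g hg hfg using hal
      -- the sequence g k stabilises
      have hg' : ∀ k, ∀ i < (ofNat (List ℕ) (c 1)).length + k, g (k + 1) i = g k i := by
        intro k
        have h1 : pre (g (k + 1)) ((ofNat (List ℕ) (c 1)).length + (k + 1)) =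
            ofNat (List ℕ) (c (k + 1 + 1)) := by rw [← hlen, hg]
        have h2 : pre (g k) ((ofNat (List ℕ) (c 1)).length + k) = ofNat (List ℕ) (c (k + 1)) := by
          rw [← hlen, hg]
        have h3 := ((hstep (k + 1)).2 (by omega)).1
        rw [← h1, ← h2, ← add_assoc] at h3
        simp only [pre, List.tail_cons] at h3
        exact pre_eq_pre.1 h3
      have hg'' : ∀ k l i, i < (ofNat (List ℕ) (c 1)).length + k → g (k + l) i = g k i := by
        intro k l i hi
        induction l with
        | zero => rfl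
        | succ l ih =>
          rw [← add_assoc, hg' (k + l) i (by omega), ih]
      let G : ℕ → ℕ := fun i => g (i + 1) i
      refine ⟨G, ?_⟩
      -- f G = z
      have hG : Filter.Tendsto g Filter.atTop (nhds G) := by
        rw [tendsto_pi_nhds]
        intro i
        apply tendsto_const_nhds.congr'
        filter_upwards [Filter.eventually_ge_atTop (i + 1)] with k hk
        obtain ⟨l, rfl⟩ := Nat.exists_eq_add_of_le hk
        exact (hg'' (i + 1) l i (by omega)).symm
      have hfG : Filter.Tendsto (fun k => f (g k)) Filter.atTop (nhds (f G)) :=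
        (hf.tendsto G).comp hG
      have hfz : Filter.Tendsto (fun k => f (g k)) Filter.atTop (nhds z) := by
        rw [tendsto_pi_nhds]
        intro i
        apply tendsto_const_nhds.congr'
        filter_upwards [Filter.eventually_ge_atTop (i + 1)] with k hk
        exact (hfg k i (by rw [hlen]; omega)).symm
      exact tendsto_nhds_unique hfG hfz

theorem exists_rep {P : Set (ℕ → ℕ)} (hP : AnalyticSet Pᶜ) : Nonempty (Rep P) := by
  rw [AnalyticSet] at hP
  rcases hP with h | ⟨f, hf, hr⟩
  · refine ⟨⟨fun _ _ => 0, fun _ _ => Nat.zero_le _, fun _ _ _ _ => rfl, fun z => ?_⟩⟩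
    rw [compl_empty_iff] at h
    rw [h]
    simp only [mem_univ, true_iff]
    refine ⟨0, fun y hy => ?_⟩
    obtain ⟨n, rfl, -⟩ := hy
    refine ⟨n + 1, fun w hw => ?_⟩
    obtain ⟨m, rfl, hm⟩ := hw
    simp at hm
  · obtain ⟨r, -⟩ := exists_rep_range f hf
    rw [hr, compl_compl] at r
    exact ⟨r⟩

end Run7.h626
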