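import Mathlib
import Pool.Agent.Run7.h626.Tree

/-!
# Boundedness for analytic sets of well-founded trees
-/

set_option autoImplicit false

namespace Run7.h626

open Ordinal Cardinal MeasureTheory Set

theorem isOpen_agree (z : ℕ → ℕ) (k : ℕ) : IsOpen {z' : ℕ → ℕ | ∀ i < k, z' i = z i} := by
  have : {z' : ℕ → ℕ | ∀ i < k, z' i = z i} = ⋂ i ∈ Finset.range k, {z' | z' i = z i} := by
    ext z'
    simp
  rw [this]
  refine isOpen_biInter_finset fun i _ => ?_
  exact (isOpen_discrete ({z i} : Set ℕ)).preimage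
    (continuous_apply i : Continuous fun z' : ℕ → ℕ => z' i)

theorem isClosed_agree (z : ℕ → ℕ) (k : ℕ) : IsClosed {z' : ℕ → ℕ | ∀ i < k, z' i = z i} := by
  have : {z' : ℕ → ℕ | ∀ i < k, z' i = z i} = ⋂ i ∈ Finset.range k, {z' | z' i = z i} := by
    ext z'
    simp
  rw [this]
  refine isClosed_biInter fun i _ => ?_
  exact (isClosed_discrete ({z i} : Set ℕ)).preimage
    (continuous_apply i : Continuous fun z' : ℕ → ℕ => z' i)

theorem continuous_of_dep {Y : Type*} [TopologicalSpace Y] (F : (ℕ → ℕ) → Y) (k : ℕ)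
    (h : ∀ z z' : ℕ → ℕ, (∀ i < k, z' i = z i) → F z' = F z) : Continuous F := by
  rw [continuous_iff_continuousAt]
  intro z
  have : F =ᶠ[nhds z] fun _ => F z := by
    filter_upwards [(isOpen_agree z k).mem_nhds (by simp)] with z' hz'
    exact h z z' hz'
  exact (continuousAt_const).congr this.symm

theorem Rep.continuous {P : Set (ℕ → ℕ)} (r : Rep P) : Continuous r.π := by
  refine continuous_pi fun n => continuous_of_dep _ (n + 1) fun z z' h => ?_
  exact r.dep z' z n fun i hi => h i (by omega)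

theorem exists_pre (s : List ℕ) : ∃ g, pre g s.length = s := by
  induction s with
  | nil => exact ⟨fun _ => 0, rfl⟩
  | cons a s ih =>
    obtain ⟨g, hg⟩ := ih
    refine ⟨Function.update g s.length a, ?_⟩
    simp only [List.length_cons, pre, Function.update_self, List.cons.injEq, true_and]
    rw [← hg] at *
    rw [length_pre]
    refine pre_eq_pre.2 fun i hi => ?_
    rw [Function.update_of_ne]
    rw [length_pre] at *
    omega

theorem pre_suffix (g : ℕ → ℕ) {k m : ℕ} (h : k ≤ m) : pre g k <:+ pre g m := by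
  induction m with
  | zero =>
    have : k = 0 := by omega
    rw [this]
  | succ m ih =>
    rcases Nat.lt_or_ge m k with h' | h'
    · have : k = m + 1 := by omega
      rw [this]
    · exact (ih h').trans (List.suffix_cons _ _)

theorem pre_of_suffix {g : ℕ → ℕ} {m : ℕ} {s : List ℕ} (h : s <:+ pre g m) :
    pre g s.length = s := by
  have h1 : s.length ≤ m := by
    have := h.length_le
    rwa [length_pre] at this
  have h2 := pre_suffix g h1
  have h3 := List.suffix_of_suffix_length_le h2 h (by simp)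
  exact h3.eq_of_length (by simp)

theorem chain_limit (s : ℕ → List ℕ) (h : ∀ n, s n <:+ s (n + 1))
    (hl : ∀ n, (s n).length < (s (n + 1)).length) : ∃ G, ∀ n, pre G (s n).length = s n := by
  choose g hg using fun n => exists_pre (s n)
  have hs : ∀ n k, s n <:+ s (n + k) := by
    intro n k
    induction k with
    | zero => exact List.suffix_rfl
    | succ k ih => exact ih.trans (h (n + k))
  have hlen : ∀ n, n ≤ (s n).length := by
    intro n
    induction n with
    | zero => omega
    | succ n ih => have := hl n; omega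
  have key : ∀ n k i, i < (s n).length → g (n + k) i = g n i := by
    intro n k i hi
    have h1 : pre (g (n + k)) (s n).length = s n := by
      have := hs n k
      rw [← hg (n + k)] at this
      exact pre_of_suffix this
    have h2 := h1.trans (hg n).symm
    exact pre_eq_pre.1 h2 i hi
  refine ⟨fun i => g (i + 1) i, fun n => ?_⟩
  conv_rhs => rw [← hg n]
  refine pre_eq_pre.2 fun i hi => ?_
  have h1 := key n (i + 1) i hi
  have h2 := key (i + 1) n i (by have := hlen (i + 1); omega)
  rw [← h1, ← h2]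
  congr 1
  omega

/-- the tree of attempts to find a point of `f` and a descending sequence -/
def W (f : (ℕ → ℕ) → (ℕ → ℕ)) (a b : List ℕ × ℕ) : Prop :=
  b.1 <:+ a.1 ∧ b.1.length < a.1.length ∧ ∀ g, pre g a.1.length = a.1 → R (f g) a.2 b.2

theorem W_acc {f : (ℕ → ℕ) → (ℕ → ℕ)} (hf : ∀ g, Acc (R (f g)) 0) : Acc (W f) ([], 0) := by
  by_contra hc
  obtain ⟨c, hc0, hc⟩ := not_acc_iff_exists_descending_chain.1 hc
  obtain ⟨G, hG⟩ := chain_limit (fun n => (c n).1) (fun n => (hc n).1) (fun n => (hc n).2.1)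
  refine not_acc_iff_exists_descending_chain.2 ⟨fun n => (c n).2, by simp [hc0], fun n => ?_⟩ (hf G)
  exact (hc n).2.2 G (hG (n + 1))

theorem W_rk {f : (ℕ → ℕ) → (ℕ → ℕ)} (hc : Continuous f) (hf : ∀ g, Acc (R (f g)) 0)
    (g : ℕ → ℕ) : rk (R (f g)) 0 ≤ rk (W f) ([], 0) := by
  refine (Sim.acc_and_le (?_ : Sim (R (f g)) 0 (W f) ([], 0)) (W_acc hf)).2
  refine ⟨fun i a => a.2 = i ∧ pre g a.1.length = a.1, ⟨rfl, rfl⟩, ?_⟩
  rintro x ⟨s, y⟩ ⟨hxy, hs⟩ x' hx'
  simp only at hxy hs
  subst hxy
  -- find a long enough initial segment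
  obtain ⟨n, rfl, hn⟩ := hx'
  have hcont : Continuous fun g' => f g' n := (continuous_apply n).comp hc
  have hopen : IsOpen {g' | f g' n = y} :=
    (isOpen_discrete ({y} : Set ℕ)).preimage hcont
  have hmem : g ∈ {g' | f g' n = y} := hn
  obtain ⟨k, hk⟩ : ∃ k, {g' : ℕ → ℕ | ∀ i < k, g' i = g i} ⊆ {g' | f g' n = y} := by
    obtain ⟨I, u, hu, hsub⟩ := isOpen_pi_iff.1 hopen g hmem
    refine ⟨I.sup id + 1, fun g' hg' => hsub fun i hi => ?_⟩
    have : i ≤ I.sup id := Finset.le_sup (f := id) hi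
    rw [hg' i (by omega)]
    exact (hu i hi).2
  refine ⟨(pre g (max k (s.length + 1)), n + 1), ⟨?_, ?_, ?_⟩, rfl, by simp⟩
  · simp only
    rw [← hs]
    exact pre_suffix g (by simp)
  · simp
  · simp only [length_pre]
    intro g' hg'
    rw [R_succ]
    apply hk
    intro i hi
    exact pre_eq_pre.1 hg' i (by simp [hi])

/-- **Boundedness**. -/
theorem bounded_of_analytic {A : Set (ℕ → ℕ)} (hA : AnalyticSet A)
    (h : ∀ p ∈ A, Acc (R p) 0) : ∃ o < ω₁, ∀ p ∈ A, rk (R p) 0 ≤ o := by
  rw [AnalyticSet] at hA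
  rcases hA with rfl | ⟨f, hf, rfl⟩
  · exact ⟨0, omega_pos 1, by simp⟩
  · refine ⟨rk (W f) ([], 0), rk_lt_omega1 _ _, ?_⟩
    rintro _ ⟨g, rfl⟩
    exact W_rk hf (fun g => h _ ⟨g, rfl⟩) g

end Run7.h626
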