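import Mathlib
import Pool.Agent.Run7.h626.Bound

/-!
# Closure properties of analytic, coanalytic and `Σ¹₂` sets
-/

set_option autoImplicit false

namespace Run7.h626

open Ordinal Cardinal MeasureTheory Set

/-- shortcut instance -/
instance (priority := 2000) polish_prod {X Y : Type} [TopologicalSpace X] [TopologicalSpace Y]
    [PolishSpace X] [PolishSpace Y] : PolishSpace (X × Y) := { }

/-- shortcut instance -/
instance (priority := 2000) polish_pi {X : Type} [TopologicalSpace X] [PolishSpace X] :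
    PolishSpace (ℕ → X) := { }

section Analytic

variable {X Y : Type} [TopologicalSpace X] [PolishSpace X] [TopologicalSpace Y] [PolishSpace Y]

theorem an_inter {s t : Set X} (hs : AnalyticSet s) (ht : AnalyticSet t) :
    AnalyticSet (s ∩ t) := by
  rw [inter_eq_iInter]
  exact AnalyticSet.iInter fun b => by cases b <;> assumption

theorem an_union {s t : Set X} (hs : AnalyticSet s) (ht : AnalyticSet t) :
    AnalyticSet (s ∪ t) := by
  rw [union_eq_iUnion]
  exact AnalyticSet.iUnion fun b => by cases b <;> assumption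

theorem an_exists {A : Set (X × Y)} (hA : AnalyticSet A) :
    AnalyticSet {x | ∃ y, (x, y) ∈ A} := by
  have : {x | ∃ y, (x, y) ∈ A} = Prod.fst '' A := by
    ext x
    simp
  rw [this]
  exact hA.image_of_continuous continuous_fst

theorem an_exists_nat {A : ℕ → Set X} (hA : ∀ n, AnalyticSet (A n)) :
    AnalyticSet {x | ∃ n, x ∈ A n} := by
  have : {x | ∃ n, x ∈ A n} = ⋃ n, A n := by
    ext x
    simp
  rw [this]
  exact AnalyticSet.iUnion hA

theorem an_forall_nat {A : ℕ → Set X} (hA : ∀ n, AnalyticSet (A n)) :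
    AnalyticSet {x | ∀ n, x ∈ A n} := by
  have : {x | ∀ n, x ∈ A n} = ⋂ n, A n := by
    ext x
    simp
  rw [this]
  exact AnalyticSet.iInter hA

end Analytic

section Sim

variable {X : Type} [TopologicalSpace X] [PolishSpace X] [MeasurableSpace X] [BorelSpace X]

theorem measurable_R {π : X → ℕ → ℕ} (hπ : Measurable π) (m j : ℕ) :
    MeasurableSet {x | R (π x) m j} := by
  rcases m with _ | n
  · have : {x | R (π x) 0 j} = ∅ := by
      ext x
      simp [not_R_zero]
    rw [this]
    exact MeasurableSet.empty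
  · have : {x | R (π x) (n + 1) j} = (fun x => π x n) ⁻¹' {j} := by
      ext x
      simp [R_succ]
    rw [this]
    exact ((measurable_pi_apply n).comp hπ) (MeasurableSet.singleton j)

theorem an_sim {r s : X → ℕ → ℕ → Prop} (hr : ∀ a b, MeasurableSet {x | r x a b})
    (hs : ∀ a b, MeasurableSet {x | s x a b}) (i j : ℕ) :
    AnalyticSet {x | Sim (r x) i (s x) j} := by
  have hG : ∀ a b, MeasurableSet {y : X × (ℕ → ℕ → ℕ) | y.2 a b = 1} := by
    intro a b
    have hm : Measurable fun y : X × (ℕ → ℕ → ℕ) => y.2 a b := by fun_prop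
    exact hm (MeasurableSet.singleton 1)
  have hR : ∀ a b, MeasurableSet {y : X × (ℕ → ℕ → ℕ) | r y.1 a b} := fun a b =>
    (measurable_fst : Measurable (Prod.fst : X × (ℕ → ℕ → ℕ) → X)) (hr a b)
  have hS : ∀ a b, MeasurableSet {y : X × (ℕ → ℕ → ℕ) | s y.1 a b} := fun a b =>
    (measurable_fst : Measurable (Prod.fst : X × (ℕ → ℕ → ℕ) → X)) (hs a b)
  have hmeas : MeasurableSet {y : X × (ℕ → ℕ → ℕ) | y.2 i j = 1 ∧
      ∀ a b, y.2 a b = 1 → ∀ a', r y.1 a' a → ∃ b', s y.1 b' b ∧ y.2 a' b' = 1} := by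
    have : {y : X × (ℕ → ℕ → ℕ) | y.2 i j = 1 ∧
      ∀ a b, y.2 a b = 1 → ∀ a', r y.1 a' a → ∃ b', s y.1 b' b ∧ y.2 a' b' = 1} =
      {y | y.2 i j = 1} ∩ ⋂ a, ⋂ b, ({y | y.2 a b = 1}ᶜ ∪
        ⋂ a', ({y | r y.1 a' a}ᶜ ∪ ⋃ b', ({y | s y.1 b' b} ∩ {y | y.2 a' b' = 1}))) := by
      ext y
      simp only [mem_setOf_eq, mem_inter_iff, mem_iInter, mem_union, mem_compl_iff, mem_iUnion]
      refine and_congr_right fun _ => forall_congr' fun a => forall_congr' fun b => ?_
      rw [imp_iff_not_or]
      refine or_congr Iff.rfl (forall_congr' fun a' => ?_)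
      rw [imp_iff_not_or]
    rw [this]
    refine (hG i j).inter (MeasurableSet.iInter fun a => MeasurableSet.iInter fun b =>
      (hG a b).compl.union (MeasurableSet.iInter fun a' => (hR a' a).compl.union
        (MeasurableSet.iUnion fun b' => (hS b' b).inter (hG a' b'))))
  have := an_exists (hmeas.analyticSet)
  convert this using 1
  ext x
  simp only [mem_setOf_eq]
  constructor
  · rintro ⟨G, h1, h2⟩
    classical
    refine ⟨fun a b => if G a b then 1 else 0, by simpa using h1, ?_⟩
    intro a b hab a' ha'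
    obtain ⟨b', hb', hg⟩ := h2 a b (by simpa using hab) a' ha'
    exact ⟨b', hb', by simpa using hg⟩
  · rintro ⟨G, h1, h2⟩
    exact ⟨fun a b => G a b = 1, h1, h2⟩

theorem an_simLt {r s : X → ℕ → ℕ → Prop} (hr : ∀ a b, MeasurableSet {x | r x a b})
    (hs : ∀ a b, MeasurableSet {x | s x a b}) (i j : ℕ) :
    AnalyticSet {x | SimLt (r x) i (s x) j} := by
  have : {x | SimLt (r x) i (s x) j} = {x | ∃ b', x ∈ {x | s x b' j} ∩ {x | Sim (r x) i (s x) b'}} := by
    ext x
    rfl
  rw [this]
  exact an_exists_nat fun b' => an_inter (hs b' j).analyticSet (an_sim hr hs i b')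

end Sim

/-- There are relations on `ℕ` of any countable rank. -/
theorem exists_rel_rk {o : Ordinal.{0}} (ho : o < ω₁) :
    ∃ (S : ℕ → ℕ → Prop) (j : ℕ), Acc S j ∧ o ≤ rk S j := by
  have h1 : Countable (Order.succ o).ToType := by
    rw [← Cardinal.mk_le_aleph0_iff, Cardinal.mk_toType]
    have h2 : Order.succ o < ω₁ := (isSuccLimit_omega 1).succ_lt ho
    rw [← Cardinal.ord_aleph, Cardinal.lt_ord, ← Cardinal.succ_aleph0] at h2
    exact Order.lt_succ_iff.1 h2
  obtain ⟨e, he⟩ := h1.exists_injective_nat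
  let S : ℕ → ℕ → Prop := fun m n => ∃ a b, e a = m ∧ e b = n ∧ a < b
  have hacc : ∀ b, Acc S (e b) := by
    intro b
    induction b using WellFoundedLT.induction with
    | _ b ih =>
      refine ⟨_, fun m hm => ?_⟩
      obtain ⟨a, b', rfl, hb, hab⟩ := hm
      rw [he hb] at hab
      exact ih a hab
  have hrk : ∀ b, typein (· < ·) b ≤ rk S (e b) := by
    intro b
    induction b using WellFoundedLT.induction with
    | _ b ih =>
      by_contra hc
      rw [not_le] at hc
      have hlt : rk S (e b) < typeLT (Order.succ o).ToType := hc.trans (typein_lt_type _ b)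
      obtain ⟨a, ha⟩ := typein_surj (· < ·) hlt
      have hab : a < b := by
        rw [← typein_lt_typein (· < ·), ha]
        exact hc
      have h2 := ih a hab
      have h3 : rk S (e a) < rk S (e b) := rk_lt (hacc b) ⟨a, b, rfl, rfl, hab⟩
      rw [ha] at h2
      exact absurd h3 (not_lt.2 h2)
  have hlt : o < typeLT (Order.succ o).ToType := by
    rw [type_toType]
    exact Order.lt_succ o
  obtain ⟨a, ha⟩ := typein_surj (· < ·) hlt
  exact ⟨S, e a, hacc a, by rw [← ha]; exact hrk a⟩

end Run7.h626
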