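import Mathlib
import Pool.Agent.Run7.h626.Proj

/-!
# The uniformization theorem of Novikov and Kondo for coanalytic sets
-/

set_option autoImplicit false
set_option linter.unusedSectionVars false

namespace Run7.h626

open Ordinal Cardinal MeasureTheory Set

/-- A representation of `Q` by trees. -/
structure Rep2 (Q : Set ((ℕ → ℕ) × (ℕ → ℕ))) where
  /-- `π y z n` is the parent of `n + 1` in the tree of `(y, z)` -/
  π : (ℕ → ℕ) → (ℕ → ℕ) → (ℕ → ℕ)
  le : ∀ y z n, π y z n ≤ n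
  dep : ∀ y z z' n, (∀ i ≤ n, z i = z' i) → π y z n = π y z' n
  cont : Continuous fun q : (ℕ → ℕ) × (ℕ → ℕ) => π q.1 q.2
  mem : ∀ y z, (y, z) ∈ Q ↔ Acc (R (π y z)) 0

/-- interleaving -/
def inter (y z : ℕ → ℕ) (n : ℕ) : ℕ := if n % 2 = 0 then y (n / 2) else z (n / 2)

theorem inter_even (y z : ℕ → ℕ) (n : ℕ) : inter y z (2 * n) = y n := by
  simp [inter]

theorem inter_odd (y z : ℕ → ℕ) (n : ℕ) : inter y z (2 * n + 1) = z n := by
  have h1 : (2 * n + 1) % 2 = 1 := by omega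
  have h2 : (2 * n + 1) / 2 = n := by omega
  simp [inter, h1, h2]

theorem continuous_inter : Continuous fun q : (ℕ → ℕ) × (ℕ → ℕ) => inter q.1 q.2 := by
  refine continuous_pi fun n => ?_
  unfold inter
  by_cases h : n % 2 = 0
  · simp only [h, if_true]
    fun_prop
  · simp only [h, if_false]
    fun_prop

theorem exists_rep2 {Q : Set ((ℕ → ℕ) × (ℕ → ℕ))} (hQ : AnalyticSet Qᶜ) : Nonempty (Rep2 Q) := by
  let d : (ℕ → ℕ) → (ℕ → ℕ) × (ℕ → ℕ) := fun w => (fun n => w (2 * n), fun n => w (2 * n + 1))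
  have hd : Continuous d := by fun_prop
  have hP : AnalyticSet (d ⁻¹' Q)ᶜ := by
    rw [← preimage_compl]
    exact hQ.preimage hd
  obtain ⟨r⟩ := exists_rep hP
  refine ⟨⟨fun y z => r.π (inter y z), fun y z n => r.le _ n, ?_, ?_, ?_⟩⟩
  · intro y z z' n h
    refine r.dep _ _ n fun i hi => ?_
    unfold inter
    split_ifs
    · rfl
    · exact h _ (by omega)
  · exact r.continuous.comp continuous_inter
  · intro y z
    have : d (inter y z) = (y, z) := by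
      simp only [d, inter_even, inter_odd]
    rw [← r.mem, mem_preimage, this]

namespace Rep2

variable {Q : Set ((ℕ → ℕ) × (ℕ → ℕ))} (r : Rep2 Q)

/-- the tree of `(y, z)` -/
def T (y z : ℕ → ℕ) : ℕ → ℕ → Prop := R (r.π y z)

theorem acc_all {y z : ℕ → ℕ} (h : (y, z) ∈ Q) (i : ℕ) : Acc (r.T y z) i :=
  Run7.h626.acc_all (r.le y z) ((r.mem y z).1 h) i

/-- the key that is minimised at stage `n` -/
noncomputable def key (y z : ℕ → ℕ) (n : ℕ) : Ordinal.{0} ×ₗ ℕ := toLex (rk (r.T y z) n, z n)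

/-- the set of the elements that are minimal at all stages before `n` -/
def K (y : ℕ → ℕ) : ℕ → Set (ℕ → ℕ)
  | 0 => {z | (y, z) ∈ Q}
  | n + 1 => {z | z ∈ K y n ∧ ∀ z' ∈ K y n, r.key y z n ≤ r.key y z' n}

theorem K_anti {y : ℕ → ℕ} {n m : ℕ} (h : n ≤ m) : r.K y m ⊆ r.K y n := by
  induction m with
  | zero =>
    have : n = 0 := by omega
    rw [this]
  | succ m ih =>
    rcases Nat.lt_or_ge m n with h' | h'
    · have : n = m + 1 := by omega
      rw [this]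
    · exact fun z hz => ih h' hz.1

theorem K_nonempty {y : ℕ → ℕ} (h : ∃ z, (y, z) ∈ Q) (n : ℕ) : (r.K y n).Nonempty := by
  induction n with
  | zero => exact h
  | succ n ih =>
    have hw : WellFounded fun a b : Ordinal.{0} ×ₗ ℕ => a < b := wellFounded_lt
    obtain ⟨_, ⟨z, hz, rfl⟩, hmin⟩ :=
      hw.has_min ((fun z => r.key y z n) '' r.K y n) (ih.image _)
    exact ⟨z, hz, fun z' hz' => not_lt.1 (hmin _ ⟨z', hz', rfl⟩)⟩

theorem exists_min {y : ℕ → ℕ} (h : ∃ z, (y, z) ∈ Q) : ∃ z, ∀ n, z ∈ r.K y n := by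
  choose g hg using fun n => r.K_nonempty h (n + 1)
  have key_eq : ∀ n m, n ≤ m → r.key y (g m) n = r.key y (g n) n := by
    intro n m hnm
    have h1 : g m ∈ r.K y (n + 1) := r.K_anti (by omega) (hg m)
    exact le_antisymm (h1.2 _ (hg n).1) ((hg n).2 _ h1.1)
  have hrk : ∀ n m, n ≤ m → rk (r.T y (g m)) n = rk (r.T y (g n)) n := by
    intro n m hnm
    have := key_eq n m hnm
    unfold key at this
    exact congrArg (fun a => (ofLex a).1) this
  have hval : ∀ n m, n ≤ m → g m n = g n n := by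
    intro n m hnm
    have := key_eq n m hnm
    unfold key at this
    exact congrArg (fun a => (ofLex a).2) this
  have hgQ : ∀ m, (y, g m) ∈ Q := fun m => r.K_anti (Nat.zero_le (m + 1)) (hg m)
  let G : ℕ → ℕ := fun n => g n n
  have hlt : ∀ m j, r.T y G m j → rk (r.T y (g m)) m < rk (r.T y (g j)) j := by
    intro m j hmj
    have hjm : j < m := R_lt (r.le y G) hmj
    obtain ⟨k, rfl, hk⟩ := hmj
    have h1 : r.π y (g (k + 1)) k = j := by
      rw [← hk]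
      refine r.dep _ _ _ _ fun i hi => ?_
      exact hval i (k + 1) (by omega)
    have h2 : r.T y (g (k + 1)) (k + 1) j := R_succ.2 h1
    have h3 := rk_lt (r.acc_all (hgQ (k + 1)) j) h2
    rwa [hrk j (k + 1) (by omega)] at h3
  have hacc : ∀ i, Acc (r.T y G) i := by
    have hwf : WellFounded (r.T y G) :=
      Subrelation.wf (fun {a b} hab => hlt a b hab)
        (InvImage.wf (fun m => rk (r.T y (g m)) m) wellFounded_lt)
    exact fun i => hwf.apply i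
  have hGQ : (y, G) ∈ Q := (r.mem y G).2 (hacc 0)
  have hle : ∀ i, rk (r.T y G) i ≤ rk (r.T y (g i)) i := by
    intro i
    have := hacc i
    induction this with
    | intro i _ ih =>
      refine rk_le_of (hacc i) fun a ha => ?_
      exact lt_of_le_of_lt (ih a ha) (hlt a i ha)
  have hkey : ∀ n, r.key y G n ≤ r.key y (g n) n := by
    intro n
    unfold key
    rw [Prod.Lex.toLex_le_toLex]
    simp only
    rcases (hle n).lt_or_eq with h1 | h1
    · exact Or.inl h1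
    · exact Or.inr ⟨h1, le_rfl⟩
  refine ⟨G, fun n => ?_⟩
  induction n with
  | zero => exact hGQ
  | succ n ih => exact ⟨ih, fun z' hz' => (hkey n).trans ((hg n).2 z' hz')⟩

/-- `z'` beats `z` at stage `n` -/
def Beat (y z' z : ℕ → ℕ) (n : ℕ) : Prop :=
  (∀ i < n, (Sim (r.T y z') i (r.T y z) i ∧ Sim (r.T y z) i (r.T y z') i) ∧ z' i = z i) ∧
    (SimLt (r.T y z') n (r.T y z) n ∨
      ((Sim (r.T y z') n (r.T y z) n ∧ Sim (r.T y z) n (r.T y z') n) ∧ z' n < z n))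

theorem beat_iff {y z' z : ℕ → ℕ} {n : ℕ} (hz : (y, z) ∈ Q) :
    r.Beat y z' z n ↔ (y, z') ∈ Q ∧ (∀ i < n, r.key y z' i = r.key y z i) ∧
      r.key y z' n < r.key y z n := by
  have hacc := r.acc_all hz
  constructor
  · rintro ⟨h1, h2⟩
    have hz' : (y, z') ∈ Q := by
      rw [r.mem]
      rcases Nat.eq_zero_or_pos n with rfl | hn
      · rcases h2 with h2 | h2
        · exact ((simLt_iff (hacc 0)).1 h2).1
        · exact ((sim_iff (hacc 0)).1 h2.1.1).1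
      · exact ((sim_iff (hacc 0)).1 (h1 0 hn).1.1).1
    have hacc' := r.acc_all hz'
    refine ⟨hz', fun i hi => ?_, ?_⟩
    · obtain ⟨⟨h3, h4⟩, h5⟩ := h1 i hi
      have h3' := ((sim_iff (hacc i)).1 h3).2
      have h4' := ((sim_iff (hacc' i)).1 h4).2
      unfold key
      rw [le_antisymm h3' h4', h5]
    · unfold key
      rw [Prod.Lex.toLex_lt_toLex]
      rcases h2 with h2 | ⟨⟨h3, h4⟩, h5⟩
      · exact Or.inl ((simLt_iff (hacc n)).1 h2).2
      · have h3' := ((sim_iff (hacc n)).1 h3).2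
        have h4' := ((sim_iff (hacc' n)).1 h4).2
        exact Or.inr ⟨le_antisymm h3' h4', h5⟩
  · rintro ⟨hz', h1, h2⟩
    have hacc' := r.acc_all hz'
    refine ⟨fun i hi => ?_, ?_⟩
    · have := h1 i hi
      unfold key at this
      have h3 : rk (r.T y z') i = rk (r.T y z) i := congrArg (fun a => (ofLex a).1) this
      have h4 : z' i = z i := congrArg (fun a => (ofLex a).2) this
      exact ⟨⟨sim_of_rk_le (hacc' i) (hacc i) h3.le, sim_of_rk_le (hacc i) (hacc' i) h3.ge⟩, h4⟩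
    · unfold key at h2
      rw [Prod.Lex.toLex_lt_toLex] at h2
      rcases h2 with h2 | ⟨h2, h3⟩
      · exact Or.inl ((simLt_iff (hacc n)).2 ⟨hacc' n, h2⟩)
      · exact Or.inr ⟨⟨sim_of_rk_le (hacc' n) (hacc n) h2.le,
          sim_of_rk_le (hacc n) (hacc' n) h2.ge⟩, h3⟩

theorem analytic_beat (n : ℕ) :
    AnalyticSet {q : ((ℕ → ℕ) × (ℕ → ℕ)) × (ℕ → ℕ) | r.Beat q.1.1 q.2 q.1.2 n} := by
  have hA : ∀ a b, MeasurableSet {q : ((ℕ → ℕ) × (ℕ → ℕ)) × (ℕ → ℕ) | r.T q.1.1 q.2 a b} := by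
    intro a b
    refine measurable_R (π := fun q : ((ℕ → ℕ) × (ℕ → ℕ)) × (ℕ → ℕ) => r.π q.1.1 q.2) ?_ a b
    have : Continuous fun q : ((ℕ → ℕ) × (ℕ → ℕ)) × (ℕ → ℕ) => r.π q.1.1 q.2 :=
      r.cont.comp (by fun_prop : Continuous fun q : ((ℕ → ℕ) × (ℕ → ℕ)) × (ℕ → ℕ) => (q.1.1, q.2))
    exact this.measurable
  have hB : ∀ a b, MeasurableSet {q : ((ℕ → ℕ) × (ℕ → ℕ)) × (ℕ → ℕ) | r.T q.1.1 q.1.2 a b} := by
    intro a b
    refine measurable_R (π := fun q : ((ℕ → ℕ) × (ℕ → ℕ)) × (ℕ → ℕ) => r.π q.1.1 q.1.2) ?_ a b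
    have : Continuous fun q : ((ℕ → ℕ) × (ℕ → ℕ)) × (ℕ → ℕ) => r.π q.1.1 q.1.2 :=
      r.cont.comp (by fun_prop : Continuous fun q : ((ℕ → ℕ) × (ℕ → ℕ)) × (ℕ → ℕ) => (q.1.1, q.1.2))
    exact this.measurable
  have hEq : ∀ i, AnalyticSet {q : ((ℕ → ℕ) × (ℕ → ℕ)) × (ℕ → ℕ) |
      Sim (r.T q.1.1 q.2) i (r.T q.1.1 q.1.2) i ∧ Sim (r.T q.1.1 q.1.2) i (r.T q.1.1 q.2) i} :=
    fun i => an_inter (an_sim hA hB i i) (an_sim hB hA i i)
  have h1 : AnalyticSet {q : ((ℕ → ℕ) × (ℕ → ℕ)) × (ℕ → ℕ) | ∀ i < n,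
      (Sim (r.T q.1.1 q.2) i (r.T q.1.1 q.1.2) i ∧ Sim (r.T q.1.1 q.1.2) i (r.T q.1.1 q.2) i) ∧
        q.2 i = q.1.2 i} := by
    have : ∀ i, AnalyticSet {q : ((ℕ → ℕ) × (ℕ → ℕ)) × (ℕ → ℕ) | i < n →
      (Sim (r.T q.1.1 q.2) i (r.T q.1.1 q.1.2) i ∧ Sim (r.T q.1.1 q.1.2) i (r.T q.1.1 q.2) i) ∧
        q.2 i = q.1.2 i} := by
      intro i
      by_cases hi : i < n
      · simp only [hi, true_imp_iff]
        refine an_inter (hEq i) ?_
        have : MeasurableSet {q : ((ℕ → ℕ) × (ℕ → ℕ)) × (ℕ → ℕ) | q.2 i = q.1.2 i} :=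
          measurableSet_eq_fun (by fun_prop) (by fun_prop)
        exact this.analyticSet
      · simp only [hi, false_imp_iff]
        exact MeasurableSet.univ.analyticSet
    exact an_forall_nat this
  have h2 : AnalyticSet {q : ((ℕ → ℕ) × (ℕ → ℕ)) × (ℕ → ℕ) |
      SimLt (r.T q.1.1 q.2) n (r.T q.1.1 q.1.2) n ∨
      ((Sim (r.T q.1.1 q.2) n (r.T q.1.1 q.1.2) n ∧ Sim (r.T q.1.1 q.1.2) n (r.T q.1.1 q.2) n) ∧
        q.2 n < q.1.2 n)} := by
    refine an_union (an_simLt hA hB n n) (an_inter (hEq n) ?_)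
    have : MeasurableSet {q : ((ℕ → ℕ) × (ℕ → ℕ)) × (ℕ → ℕ) | q.2 n < q.1.2 n} :=
      measurableSet_lt (by fun_prop) (by fun_prop)
    exact this.analyticSet
  exact an_inter h1 h2

end Rep2

/-- **Kondo's uniformization theorem**. -/
theorem kondo {Q : Set ((ℕ → ℕ) × (ℕ → ℕ))} (hQ : AnalyticSet Qᶜ) :
    ∃ Q' ⊆ Q, AnalyticSet Q'ᶜ ∧ (∀ y z z', (y, z) ∈ Q' → (y, z') ∈ Q' → z = z') ∧
      ∀ y z, (y, z) ∈ Q → ∃ z', (y, z') ∈ Q' := by
  obtain ⟨r⟩ := exists_rep2 hQ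
  refine ⟨{q | q ∈ Q ∧ ¬ ∃ z' n, r.Beat q.1 z' q.2 n}, fun q hq => hq.1, ?_, ?_, ?_⟩
  · have h1 : {q | q ∈ Q ∧ ¬ ∃ z' n, r.Beat q.1 z' q.2 n}ᶜ =
        Qᶜ ∪ {q | ∃ z', (q, z') ∈ {q : ((ℕ → ℕ) × (ℕ → ℕ)) × (ℕ → ℕ) |
          ∃ n, r.Beat q.1.1 q.2 q.1.2 n}} := by
      ext q
      simp only [mem_compl_iff, mem_union, mem_ofPred_eq]
      by_cases h1 : q ∈ Q <;> by_cases h2 : ∃ z' n, r.Beat q.1 z' q.2 n <;> simp [h1, h2]
    rw [h1]
    exact an_union hQ (an_exists (an_exists_nat fun n => r.analytic_beat n))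
  · rintro y z z' ⟨hz, hb⟩ ⟨hz', hb'⟩
    simp only at hb hb'
    have key : ∀ n, r.key y z n = r.key y z' n := by
      intro n
      induction n using Nat.strong_induction_on with
      | _ n ih =>
        rcases lt_trichotomy (r.key y z n) (r.key y z' n) with h | h | h
        · exact absurd ⟨z, n, (r.beat_iff hz').2 ⟨hz, ih, h⟩⟩ hb'
        · exact h
        · exact absurd ⟨z', n, (r.beat_iff hz).2 ⟨hz', fun i hi => (ih i hi).symm, h⟩⟩ hb
    funext n
    have := key n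
    unfold Rep2.key at this
    exact congrArg (fun a => (ofLex a).2) this
  · intro y z hz
    obtain ⟨G, hG⟩ := r.exists_min ⟨z, hz⟩
    refine ⟨G, hG 0, ?_⟩
    rintro ⟨z', n, hb⟩
    obtain ⟨hz', h1, h2⟩ := (r.beat_iff (hG 0)).1 hb
    have h3 : ∀ i ≤ n, z' ∈ r.K y i := by
      intro i
      induction i with
      | zero => exact fun _ => hz'
      | succ i ih =>
        intro hi
        refine ⟨ih (by omega), fun w hw => ?_⟩
        rw [h1 i (by omega)]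
        exact (hG (i + 1)).2 w hw
    exact absurd ((hG (n + 1)).2 z' (h3 n le_rfl)) (not_le.2 h2)

end Run7.h626
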