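import Mathlib
import Pool.Agent.Run7.h626.Kondo

/-!
# `Σ¹₂` sets and the countability lemma
-/

set_option autoImplicit false
set_option linter.unusedSectionVars false

namespace Run7.h626

open Ordinal Cardinal MeasureTheory Set

variable {X : Type} [TopologicalSpace X] [PolishSpace X]

/-- projections of coanalytic sets -/
def S12 (B : Set X) : Prop :=
  ∃ Q : Set (X × (ℕ → ℕ)), AnalyticSet Qᶜ ∧ B = {x | ∃ y, (x, y) ∈ Q}

theorem S12.of_coanalytic {B : Set X} (hB : AnalyticSet Bᶜ) : S12 B := by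
  refine ⟨{q | q.1 ∈ B}, ?_, ?_⟩
  · exact hB.preimage (f := Prod.fst) continuous_fst
  · ext x
    simp

theorem S12.of_analytic {B : Set X} (hB : AnalyticSet B) : S12 B := by
  rw [AnalyticSet] at hB
  rcases hB with rfl | ⟨f, hf, rfl⟩
  · refine ⟨∅, ?_, by simp⟩
    rw [compl_empty]
    exact isClosed_univ.analyticSet
  · refine ⟨{q | f q.2 = q.1}, ?_, ?_⟩
    · have : IsClosed {q : X × (ℕ → ℕ) | f q.2 = q.1} :=
        isClosed_eq (hf.comp continuous_snd) continuous_fst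
      let _ : MeasurableSpace (X × (ℕ → ℕ)) := borel _
      have _ : BorelSpace (X × (ℕ → ℕ)) := ⟨rfl⟩
      exact this.measurableSet.compl.analyticSet
    · ext x
      simp [eq_comm]

theorem S12.iUnion {B : ℕ → Set X} (h : ∀ n, S12 (B n)) : S12 (⋃ n, B n) := by
  choose Q hQ hB using h
  refine ⟨{q | (q.1, fun n => q.2 (n + 1)) ∈ Q (q.2 0)}, ?_, ?_⟩
  · have : {q : X × (ℕ → ℕ) | (q.1, fun n => q.2 (n + 1)) ∈ Q (q.2 0)}ᶜ =
        {q | ∃ k, q ∈ {q : X × (ℕ → ℕ) | q.2 0 = k} ∩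
          (fun q : X × (ℕ → ℕ) => (q.1, fun n => q.2 (n + 1))) ⁻¹' (Q k)ᶜ} := by
      ext q
      simp
    rw [this]
    refine an_exists_nat fun k => an_inter ?_ ((hQ k).preimage (by fun_prop))
    have : IsClosed {q : X × (ℕ → ℕ) | q.2 0 = k} :=
      isClosed_eq (by fun_prop) continuous_const
    exact this.analyticSet
  · ext x
    simp only [mem_iUnion, mem_ofPred_eq]
    constructor
    · rintro ⟨n, hn⟩
      rw [hB n] at hn
      obtain ⟨y, hy⟩ := hn
      refine ⟨fun k => Nat.casesOn k n y, ?_⟩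
      exact hy
    · rintro ⟨y, hy⟩
      refine ⟨y 0, ?_⟩
      rw [hB (y 0)]
      exact ⟨_, hy⟩

theorem S12.iInter {B : ℕ → Set X} (h : ∀ n, S12 (B n)) : S12 (⋂ n, B n) := by
  choose Q hQ hB using h
  refine ⟨{q | ∀ n, (q.1, fun k => q.2 (Nat.pair n k)) ∈ Q n}, ?_, ?_⟩
  · have : {q : X × (ℕ → ℕ) | ∀ n, (q.1, fun k => q.2 (Nat.pair n k)) ∈ Q n}ᶜ =
        {q | ∃ n, q ∈ (fun q : X × (ℕ → ℕ) => (q.1, fun k => q.2 (Nat.pair n k))) ⁻¹' (Q n)ᶜ} := by
      ext q
      simp
    rw [this]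
    exact an_exists_nat fun n => (hQ n).preimage (by fun_prop)
  · ext x
    simp only [mem_iInter, mem_ofPred_eq]
    constructor
    · intro hx
      have : ∀ n, ∃ y, (x, y) ∈ Q n := by
        intro n
        have := hx n
        rw [hB n] at this
        exact this
      choose y hy using this
      refine ⟨fun m => y m.unpair.1 m.unpair.2, fun n => ?_⟩
      simp only [Nat.unpair_pair]
      exact hy n
    · rintro ⟨y, hy⟩ n
      rw [hB n]
      exact ⟨_, hy n⟩

/-- The σ-algebra generated by the analytic sets. -/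
def sigmaAn (X : Type) [TopologicalSpace X] : MeasurableSpace X :=
  MeasurableSpace.generateFrom {s | AnalyticSet s}

theorem S12.of_sigmaAn {B : Set X} (h : MeasurableSet[sigmaAn X] B) : S12 B := by
  have key : S12 B ∧ S12 Bᶜ := by
    refine MeasurableSpace.generateFrom_induction _ (fun s _ => S12 s ∧ S12 sᶜ)
      ?_ ?_ ?_ ?_ B h
    · intro t ht _
      exact ⟨S12.of_analytic ht, S12.of_coanalytic (by rw [compl_compl]; exact ht)⟩
    · refine ⟨S12.of_analytic analyticSet_empty, S12.of_coanalytic ?_⟩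
      rw [compl_compl]
      exact analyticSet_empty
    · intro t _ ht
      rw [compl_compl]
      exact ⟨ht.2, ht.1⟩
    · intro s _ hs
      refine ⟨S12.iUnion fun n => (hs n).1, ?_⟩
      rw [compl_iUnion]
      exact S12.iInter fun n => (hs n).2
  exact key.1

theorem sigmaAn_of_an {s : Set X} (h : AnalyticSet s) : MeasurableSet[sigmaAn X] s :=
  MeasurableSpace.measurableSet_generateFrom h

theorem sigmaAn_preimage {Y : Type} [TopologicalSpace Y] [PolishSpace Y] {f : X → Y}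
    (hf : Continuous f) {s : Set Y} (h : MeasurableSet[sigmaAn Y] s) :
    MeasurableSet[sigmaAn X] (f ⁻¹' s) := by
  have : @Measurable X Y (sigmaAn X) (sigmaAn Y) f := by
    refine @measurable_generateFrom X Y (sigmaAn X) _ f fun t ht => ?_
    exact sigmaAn_of_an (AnalyticSet.preimage ht hf)
  exact this h

/-- The perfect set property for coanalytic sets. -/
def PSP : Prop :=
  ∀ A : Set (ℕ → ℕ), AnalyticSet Aᶜ → ¬ A.Countable →
    ∃ K : Set (ℕ → ℕ), K ⊆ A ∧ K.Nonempty ∧ Perfect K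

theorem perfect_not_countable {K : Set (ℕ → ℕ)} (hK : Perfect K) (hne : K.Nonempty) :
    ¬ K.Countable := by
  intro hc
  have h4 : #(ℕ → Bool) = 2 ^ ℵ₀ := by simp
  let _ := TopologicalSpace.upgradeIsCompletelyMetrizable (ℕ → ℕ)
  obtain ⟨f, hf, -, hinj⟩ := hK.exists_nat_bool_injection hne
  have h1 : (range f).Countable := hc.mono hf
  have h2 : Countable (ℕ → Bool) := by
    have := h1.to_subtype
    exact Function.Injective.countable (f := fun x => (⟨f x, mem_range_self x⟩ : range f))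
      fun x y h => hinj (congrArg Subtype.val h)
  have h3 : #(ℕ → Bool) ≤ ℵ₀ := Cardinal.mk_le_aleph0
  rw [h4] at h3
  exact absurd (Cardinal.cantor ℵ₀) (not_lt.2 h3)

open Classical in
/-- The real that codes which of the sets `D n` contain `x`. -/
noncomputable def codeOf (D : ℕ → Set (ℕ → ℕ)) (x : ℕ → ℕ) (n : ℕ) : ℕ := if x ∈ D n then 1 else 0

theorem codeOf_eq_iff {D : ℕ → Set (ℕ → ℕ)} {x y : ℕ → ℕ} :
    y = codeOf D x ↔ ∀ n, (x ∈ D n ∧ y n = 1) ∨ (x ∉ D n ∧ y n = 0) := by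
  constructor
  · rintro rfl n
    by_cases h : x ∈ D n
    · exact Or.inl ⟨h, by simp [codeOf, h]⟩
    · exact Or.inr ⟨h, by simp [codeOf, h]⟩
  · intro h
    funext n
    rcases h n with ⟨h1, h2⟩ | ⟨h1, h2⟩ <;> simp [codeOf, h1, h2]

/-- **The countability lemma**. Suppose that all uncountable coanalytic sets have perfect subsets.
If a function on the coanalytic set `C` is measurable for the σ-algebra that the analytic sets
generate and takes only countably many values on every set `{x ∈ C | rank x ≤ o}`, then it takes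
only countably many values. -/
theorem countable_values (hpsp : PSP) {C : Set (ℕ → ℕ)} (r : Rep C) (hC : AnalyticSet Cᶜ)
    (D : ℕ → Set (ℕ → ℕ)) (hD : ∀ n, MeasurableSet[sigmaAn (ℕ → ℕ)] (D n))
    (hcount : ∀ o < ω₁, (codeOf D '' {x | x ∈ C ∧ rk (R (r.π x)) 0 ≤ o}).Countable) :
    (codeOf D '' C).Countable := by
  by_contra hunc
  -- the graph
  have hR : S12 {q : (ℕ → ℕ) × (ℕ → ℕ) | q.2 ∈ C ∧ q.1 = codeOf D q.2} := by
    apply S12.of_sigmaAn
    have h1 : {q : (ℕ → ℕ) × (ℕ → ℕ) | q.2 ∈ C ∧ q.1 = codeOf D q.2} =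
        (Prod.snd ⁻¹' C) ∩ ⋂ n, ((Prod.snd ⁻¹' D n) ∩ {q : (ℕ → ℕ) × (ℕ → ℕ) | q.1 n = 1}) ∪
          ((Prod.snd ⁻¹' (D n))ᶜ ∩ {q : (ℕ → ℕ) × (ℕ → ℕ) | q.1 n = 0}) := by
      ext q
      simp only [mem_ofPred_eq, codeOf_eq_iff, mem_inter_iff, mem_preimage, mem_iInter, mem_union,
        mem_compl_iff]
    rw [h1]
    have hE : ∀ n k, MeasurableSet[sigmaAn ((ℕ → ℕ) × (ℕ → ℕ))]
        {q : (ℕ → ℕ) × (ℕ → ℕ) | q.1 n = k} := by
      intro n k
      apply sigmaAn_of_an
      have : IsClosed {q : (ℕ → ℕ) × (ℕ → ℕ) | q.1 n = k} :=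
        isClosed_eq (by fun_prop) continuous_const
      exact this.analyticSet
    have hC' : MeasurableSet[sigmaAn (ℕ → ℕ)] C := by
      rw [← compl_compl C]
      exact (sigmaAn_of_an hC).compl
    refine MeasurableSet.inter (sigmaAn_preimage continuous_snd hC') (MeasurableSet.iInter fun n =>
      MeasurableSet.union ((sigmaAn_preimage continuous_snd (hD n)).inter (hE n 1))
        ((sigmaAn_preimage continuous_snd (hD n)).compl.inter (hE n 0)))
  obtain ⟨Q, hQ, hRQ⟩ := hR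
  let e : (ℕ → ℕ) × (ℕ → ℕ) → ((ℕ → ℕ) × (ℕ → ℕ)) × (ℕ → ℕ) :=
    fun q => ((q.1, fun n => q.2 (2 * n)), fun n => q.2 (2 * n + 1))
  have he : Continuous e := by fun_prop
  obtain ⟨Q', hQ'Q, hQ', huniq, hex⟩ := kondo (Q := e ⁻¹' Q) (by
    rw [← preimage_compl]
    exact hQ.preimage he)
  let d : (ℕ → ℕ) → (ℕ → ℕ) × (ℕ → ℕ) := fun w => (fun n => w (2 * n), fun n => w (2 * n + 1))
  have hd : Continuous d := by fun_prop
  -- membership in `Q'` gives an element of `C`
  have hmem : ∀ y w, (y, w) ∈ Q' → (fun n => w (2 * n)) ∈ C ∧ y = codeOf D (fun n => w (2 * n)) := by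
    intro y w hyw
    have h1 : e (y, w) ∈ Q := hQ'Q hyw
    have h2 : (y, fun n => w (2 * n)) ∈ {q : (ℕ → ℕ) × (ℕ → ℕ) | q.2 ∈ C ∧ q.1 = codeOf D q.2} := by
      rw [hRQ]
      exact ⟨_, h1⟩
    exact h2
  have hexists : ∀ x ∈ C, ∃ w, (codeOf D x, w) ∈ Q' := by
    intro x hx
    have h2 : (codeOf D x, x) ∈ {q : (ℕ → ℕ) × (ℕ → ℕ) | q.2 ∈ C ∧ q.1 = codeOf D q.2} :=
      ⟨hx, rfl⟩
    rw [hRQ] at h2
    obtain ⟨v, hv⟩ := h2
    apply hex (codeOf D x) (inter x v)
    show e (codeOf D x, inter x v) ∈ Q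
    simp only [e, inter_even, inter_odd]
    exact hv
  have hA : AnalyticSet (d ⁻¹' Q')ᶜ := by
    rw [← preimage_compl]
    exact hQ'.preimage hd
  have hAunc : ¬ (d ⁻¹' Q').Countable := by
    intro hc
    apply hunc
    refine (hc.image fun w n => w (2 * n)).mono ?_
    rintro _ ⟨x, hx, rfl⟩
    obtain ⟨w, hw⟩ := hexists x hx
    refine ⟨inter (codeOf D x) w, ?_, ?_⟩
    · show d (inter (codeOf D x) w) ∈ Q'
      simp only [d, inter_even, inter_odd]
      exact hw
    · simp only [inter_even]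
  obtain ⟨K, hKA, hKne, hK⟩ := hpsp _ hA hAunc
  -- the projection to `C`
  let g : (ℕ → ℕ) → (ℕ → ℕ) := fun w n => w (2 * (2 * n) + 1)
  have hg : Continuous g := by fun_prop
  have hgC : ∀ w ∈ K, g w ∈ C ∧ (fun n => w (2 * n)) = codeOf D (g w) := by
    intro w hw
    exact hmem (fun n => w (2 * n)) (fun n => w (2 * n + 1)) (hKA hw)
  have hanK : AnalyticSet ((fun w => r.π (g w)) '' K) :=
    hK.closed.analyticSet.image_of_continuous (r.continuous.comp hg)
  obtain ⟨o, ho, hbd⟩ := bounded_of_analytic hanK (by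
    rintro _ ⟨w, hw, rfl⟩
    exact (r.mem _).1 (hgC w hw).1)
  have hcK : ((fun (w : ℕ → ℕ) n => w (2 * n)) '' K).Countable := by
    refine (hcount o ho).mono ?_
    rintro _ ⟨w, hw, rfl⟩
    exact ⟨g w, ⟨(hgC w hw).1, hbd _ ⟨w, hw, rfl⟩⟩, (hgC w hw).2.symm⟩
  have hinj : InjOn (fun (w : ℕ → ℕ) n => w (2 * n)) K := by
    intro w hw w' hw' hww
    have h1 : (fun n => w (2 * n), fun n => w (2 * n + 1)) ∈ Q' := hKA hw
    have h2 : (fun n => w' (2 * n), fun n => w' (2 * n + 1)) ∈ Q' := hKA hw'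
    simp only at hww
    rw [← hww] at h2
    have h3 := huniq _ _ _ h1 h2
    funext n
    rcases Nat.even_or_odd' n with ⟨k, rfl | rfl⟩
    · exact congrFun hww k
    · exact congrFun h3 k
  exact perfect_not_countable hK hKne (countable_of_injective_of_countable_image hinj hcK)

end Run7.h626
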