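import Mathlib
import Pool.Agent.Run7.h626.Sigma

/-!
# The closed sets of points with prescribed ranks: only countably many types
-/

set_option autoImplicit false
set_option linter.unusedSectionVars false

namespace Run7.h626

open Ordinal Cardinal MeasureTheory Set Encodable Denumerable

variable {C : Set (ℕ → ℕ)}

/-- The rank of the node `i` of the tree of `x`. -/
noncomputable def Rep.ρ (r : Rep C) (x : ℕ → ℕ) (i : ℕ) : Ordinal.{0} := rk (R (r.π x)) i

/-- The points of `C` with prescribed ranks of the first `n` nodes. -/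
def Rep.E (r : Rep C) (n : ℕ) (γ : ℕ → Ordinal.{0}) : Set (ℕ → ℕ) :=
  {x | x ∈ C ∧ ∀ q < n, r.ρ x q = γ q}

/-- the basic open set of `u` -/
def N (u : List ℕ) : Set (ℕ → ℕ) := {x | pre x u.length = u}

open Classical in
/-- The code of the closure of `E`. -/
noncomputable def tau (E : Set (ℕ → ℕ)) (k : ℕ) : ℕ :=
  if (N (ofNat (List ℕ) k) ∩ E).Nonempty then 1 else 0

/-- The closed set with code `c`. -/
def Cl (c : ℕ → ℕ) : Set (ℕ → ℕ) := {x | ∀ k, x ∈ N (ofNat (List ℕ) k) → c k = 1}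

theorem isOpen_N (u : List ℕ) : IsOpen (N u) := by
  obtain ⟨g, hg⟩ := exists_pre u
  have : N u = {z' : ℕ → ℕ | ∀ i < u.length, z' i = g i} := by
    ext x
    show pre x u.length = u ↔ _
    conv_lhs => rhs; rw [← hg]
    exact pre_eq_pre
  rw [this]
  exact isOpen_agree g _

theorem mem_Cl_tau {E : Set (ℕ → ℕ)} {x : ℕ → ℕ} :
    x ∈ Cl (tau E) ↔ ∀ k, ∃ y ∈ E, ∀ i < k, y i = x i := by
  constructor
  · intro h k
    have h1 := h (encode (pre x k)) (by rw [ofNat_encode]; simp [N])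
    unfold tau at h1
    rw [ofNat_encode] at h1
    split_ifs at h1 with h2
    obtain ⟨y, hy, hyE⟩ := h2
    refine ⟨y, hyE, ?_⟩
    have h3 : pre y (pre x k).length = pre x k := hy
    rw [length_pre] at h3
    exact pre_eq_pre.1 h3
  · intro h k hk
    obtain ⟨y, hyE, hy⟩ := h (ofNat (List ℕ) k).length
    unfold tau
    rw [if_pos]
    refine ⟨y, ?_, hyE⟩
    have h3 : pre x (ofNat (List ℕ) k).length = ofNat (List ℕ) k := hk
    show pre y (ofNat (List ℕ) k).length = ofNat (List ℕ) k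
    rw [← h3, length_pre]
    exact pre_eq_pre.2 hy

theorem subset_Cl_tau {E : Set (ℕ → ℕ)} {x : ℕ → ℕ} (h : x ∈ E) : x ∈ Cl (tau E) :=
  mem_Cl_tau.2 fun _ => ⟨x, h, fun _ _ => rfl⟩

theorem isClosed_Cl (c : ℕ → ℕ) : IsClosed (Cl c) := by
  have : Cl c = ⋂ k, {x | x ∈ N (ofNat (List ℕ) k) → c k = 1} := by
    ext x
    simp [Cl]
  rw [this]
  refine isClosed_iInter fun k => ?_
  by_cases h : c k = 1
  · simp [h]
  · have : {x | x ∈ N (ofNat (List ℕ) k) → c k = 1} = (N (ofNat (List ℕ) k))ᶜ := by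
      ext x
      simp [h]
    rw [this]
    exact (isOpen_N _).isClosed_compl

namespace Rep

variable (r : Rep C)

theorem acc {x : ℕ → ℕ} (hx : x ∈ C) (i : ℕ) : Acc (R (r.π x)) i :=
  acc_all (r.le x) ((r.mem x).1 hx) i

theorem ρ_le_zero {x : ℕ → ℕ} (hx : x ∈ C) (i : ℕ) : r.ρ x i ≤ r.ρ x 0 :=
  rk_le_zero (r.le x) ((r.mem x).1 hx) i

theorem exists_ρ_eq {x : ℕ → ℕ} (hx : x ∈ C) {o : Ordinal.{0}} (ho : o ≤ r.ρ x 0) :
    ∃ i, r.ρ x i = o := by
  obtain ⟨i, -, hi⟩ := exists_rk_eq (r.acc hx 0) ho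
  exact ⟨i, hi⟩

/-- The nodes `i` of `x` and `j` of `y` have the same rank. -/
def Eqv (x : ℕ → ℕ) (i : ℕ) (y : ℕ → ℕ) (j : ℕ) : Prop :=
  Sim (R (r.π x)) i (R (r.π y)) j ∧ Sim (R (r.π y)) j (R (r.π x)) i

theorem eqv_iff {x y : ℕ → ℕ} {i j : ℕ} (hy : y ∈ C) :
    r.Eqv x i y j ↔ Acc (R (r.π x)) i ∧ r.ρ x i = r.ρ y j := by
  constructor
  · rintro ⟨h1, h2⟩
    obtain ⟨h3, h4⟩ := h1.acc_and_le (r.acc hy j)
    exact ⟨h3, le_antisymm h4 (h2.acc_and_le h3).2⟩
  · rintro ⟨h1, h2⟩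
    exact ⟨sim_of_rk_le h1 (r.acc hy j) h2.le, sim_of_rk_le (r.acc hy j) h1 h2.ge⟩

/-- The points for which there is a point in `N u` with the ranks given by the nodes in `l`. -/
def D0 (l : List ℕ) (u : List ℕ) : Set (ℕ → ℕ) :=
  {x | ∃ y, y ∈ N u ∧ ∀ q < l.length, r.Eqv y q x (l.getD q 0)}

theorem measR1 (a b : ℕ) : MeasurableSet {q : (ℕ → ℕ) × (ℕ → ℕ) | R (r.π q.1) a b} :=
  measurable_R (π := fun q : (ℕ → ℕ) × (ℕ → ℕ) => r.π q.1)
    (r.continuous.comp continuous_fst).measurable a b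

theorem measR2 (a b : ℕ) : MeasurableSet {q : (ℕ → ℕ) × (ℕ → ℕ) | R (r.π q.2) a b} :=
  measurable_R (π := fun q : (ℕ → ℕ) × (ℕ → ℕ) => r.π q.2)
    (r.continuous.comp continuous_snd).measurable a b

theorem measR (a b : ℕ) : MeasurableSet {q : (ℕ → ℕ) | R (r.π q) a b} :=
  measurable_R (π := fun q : (ℕ → ℕ) => r.π q) r.continuous.measurable a b

theorem an_D0 (l : List ℕ) (u : List ℕ) : AnalyticSet (r.D0 l u) := by
  have h1 : ∀ q, AnalyticSet {p : (ℕ → ℕ) × (ℕ → ℕ) | q < l.length → r.Eqv p.2 q p.1 (l.getD q 0)} := by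
    intro q
    by_cases hq : q < l.length
    · simp only [hq, true_imp_iff]
      exact an_inter (an_sim r.measR2 r.measR1 _ _) (an_sim r.measR1 r.measR2 _ _)
    · simp only [hq, false_imp_iff]
      exact MeasurableSet.univ.analyticSet
  have h2 : AnalyticSet {p : (ℕ → ℕ) × (ℕ → ℕ) | p.2 ∈ N u} :=
    ((isOpen_N u).preimage continuous_snd).measurableSet.analyticSet
  have h3 := an_exists (an_inter h2 (an_forall_nat h1))
  exact h3

theorem mem_D0 {x : ℕ → ℕ} (hx : x ∈ C) {l : List ℕ} (hl : 0 < l.length) {u : List ℕ} :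
    x ∈ r.D0 l u ↔ (N u ∩ r.E l.length fun q => r.ρ x (l.getD q 0)).Nonempty := by
  constructor
  · rintro ⟨y, hy, h⟩
    have hyC : y ∈ C := (r.mem y).2 ((r.eqv_iff hx).1 (h 0 hl)).1
    exact ⟨y, hy, hyC, fun q hq => ((r.eqv_iff hx).1 (h q hq)).2⟩
  · rintro ⟨y, hy, hyC, h⟩
    exact ⟨y, hy, fun q hq => (r.eqv_iff hx).2 ⟨r.acc hyC q, h q hq⟩⟩

theorem E_congr {n : ℕ} {γ γ' : ℕ → Ordinal.{0}} (h : ∀ q < n, γ q = γ' q) :
    r.E n γ = r.E n γ' := by
  ext x
  constructor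
  · rintro ⟨h1, h2⟩
    exact ⟨h1, fun q hq => (h2 q hq).trans (h q hq)⟩
  · rintro ⟨h1, h2⟩
    exact ⟨h1, fun q hq => (h2 q hq).trans (h q hq).symm⟩

theorem countable_Iic {o : Ordinal.{0}} (ho : o < ω₁) : (Iic o).Countable := by
  have h2 : Order.succ o < ω₁ := (isSuccLimit_omega 1).succ_lt ho
  rw [← Cardinal.ord_aleph, Cardinal.lt_ord, ← Cardinal.succ_aleph0, Order.lt_succ_iff] at h2
  have h1 : Countable (Order.succ o).ToType := by
    rw [← Cardinal.mk_le_aleph0_iff, Cardinal.mk_toType]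
    exact h2
  have h3 : Countable (Iio (Order.succ o)) := by
    exact (ToType.mk (o := Order.succ o)).toEquiv.countable_iff.2 h1
  rw [Order.Iio_succ] at h3
  exact h3

/-- A countability principle: values that depend only on finitely many ordinals `≤ o`. -/
theorem countable_of_dep {Y : Type} {o : Ordinal.{0}} (ho : o < ω₁) (n : ℕ)
    (F : (ℕ → Ordinal.{0}) → Y) (hF : ∀ γ γ', (∀ q < n, γ q = γ' q) → F γ = F γ') :
    (F '' {γ | ∀ q, γ q ≤ o}).Countable := by
  have := (countable_Iic ho).to_subtype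
  let G : (Fin n → Iic o) → Y := fun f => F fun q => if h : q < n then (f ⟨q, h⟩ : Ordinal.{0}) else 0
  refine (countable_range G).mono ?_
  rintro _ ⟨γ, hγ, rfl⟩
  refine ⟨fun q => ⟨γ q, hγ q⟩, hF _ _ fun q hq => ?_⟩
  show (if h : q < n then γ q else 0) = γ q
  rw [dif_pos hq]

/-- **Countably many closed sets.** -/
theorem countable_tau (hpsp : PSP) (hC : AnalyticSet Cᶜ) (n : ℕ) :
    {c | ∃ γ, (r.E (n + 1) γ).Nonempty ∧ c = tau (r.E (n + 1) γ)}.Countable := by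
  let D : ℕ → Set (ℕ → ℕ) := fun k => r.D0 (List.range (n + 1)) (ofNat (List ℕ) k)
  have hrange : ∀ q < n + 1, (List.range (n + 1)).getD q 0 = q := by
    intro q hq
    simp [List.getD_eq_getElem?_getD, hq]
  have hDx : ∀ x ∈ C, codeOf D x = tau (r.E (n + 1) (r.ρ x)) := by
    intro x hx
    funext k
    have h1 := r.mem_D0 hx (l := List.range (n + 1)) (by simp) (u := ofNat (List ℕ) k)
    rw [List.length_range, r.E_congr (γ' := r.ρ x) (fun q hq => by rw [hrange q hq])] at h1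
    unfold codeOf tau
    by_cases h3 : x ∈ D k
    · rw [if_pos h3]
      exact (if_pos (h1.1 h3)).symm
    · rw [if_neg h3]
      exact (if_neg (fun h => h3 (h1.2 h))).symm
  have hcv := countable_values hpsp r hC D (fun k => sigmaAn_of_an (r.an_D0 _ _)) ?_
  · refine hcv.mono ?_
    rintro c ⟨γ, ⟨x, hxC, hx⟩, rfl⟩
    refine ⟨x, hxC, ?_⟩
    rw [hDx x hxC, r.E_congr hx]
  · intro o ho
    refine (countable_of_dep ho (n + 1) (fun γ => tau (r.E (n + 1) γ))
      (fun γ γ' h => by simp only [r.E_congr h])).mono ?_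
    rintro _ ⟨x, ⟨hxC, hx⟩, rfl⟩
    exact ⟨r.ρ x, fun q => (r.ρ_le_zero hxC q).trans hx, (hDx x hxC).symm⟩

/-- The pairs `(l, m)` such that the closed set with code `c l` belongs to an extension of `(n, γ)`
where the rank of the node `m` is at least `β`. -/
def P (c : ℕ → ℕ → ℕ) (n : ℕ) (γ : ℕ → Ordinal.{0}) (β : Ordinal.{0}) : Set (ℕ × ℕ) :=
  {lm | ∃ (n' : ℕ) (γ' : ℕ → Ordinal.{0}), n < n' ∧ (∀ q < n, γ' q = γ q) ∧ lm.2 < n' ∧
    β ≤ γ' lm.2 ∧ (∀ q < n', γ' q ≤ γ 0) ∧ tau (r.E n' γ') = c lm.1}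

/-- The analytic sets that decide `P`. -/
def D1 (c : ℕ → ℕ → ℕ) (n b : ℕ) (lm : ℕ × ℕ) : Set (ℕ → ℕ) :=
  {x | ∃ l : List ℕ, (n < l.length ∧ lm.2 < l.length) ∧
    (∀ q, q < n → r.Eqv x (l.getD q 0) x q) ∧
    Sim (R (r.π x)) b (R (r.π x)) (l.getD lm.2 0) ∧
    ∀ k, (x ∈ r.D0 l (ofNat (List ℕ) k) ∧ c lm.1 k = 1) ∨
      (x ∉ r.D0 l (ofNat (List ℕ) k) ∧ c lm.1 k = 0)}

theorem meas_D1 (c : ℕ → ℕ → ℕ) (n b : ℕ) (lm : ℕ × ℕ) :
    MeasurableSet[sigmaAn (ℕ → ℕ)] (r.D1 c n b lm) := by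
  have hprop : ∀ p : Prop, MeasurableSet[sigmaAn (ℕ → ℕ)] {_x : ℕ → ℕ | p} := fun p =>
    @MeasurableSet.const _ (sigmaAn (ℕ → ℕ)) p
  have h1 : r.D1 c n b lm = ⋃ l : List ℕ, ({_x : ℕ → ℕ | n < l.length ∧ lm.2 < l.length} ∩
      ((⋂ q, ({_x : ℕ → ℕ | q < n}ᶜ ∪ {x | r.Eqv x (l.getD q 0) x q})) ∩
      ({x | Sim (R (r.π x)) b (R (r.π x)) (l.getD lm.2 0)} ∩
      ⋂ k, ((r.D0 l (ofNat (List ℕ) k) ∩ {_x : ℕ → ℕ | c lm.1 k = 1}) ∪
        ((r.D0 l (ofNat (List ℕ) k))ᶜ ∩ {_x : ℕ → ℕ | c lm.1 k = 0}))))) := by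
    ext x
    simp only [D1, mem_ofPred_eq, mem_iUnion, mem_inter_iff, mem_iInter, mem_union, mem_compl_iff,
      imp_iff_not_or]
  rw [h1]
  refine MeasurableSet.iUnion fun l => (hprop _).inter (MeasurableSet.inter
    (MeasurableSet.iInter fun q => (hprop _).compl.union ?_) (MeasurableSet.inter ?_
    (MeasurableSet.iInter fun k => MeasurableSet.union ?_ ?_)))
  · exact sigmaAn_of_an (an_inter (an_sim r.measR r.measR _ _) (an_sim r.measR r.measR _ _))
  · exact sigmaAn_of_an (an_sim r.measR r.measR _ _)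
  · exact (sigmaAn_of_an (r.an_D0 _ _)).inter (hprop _)
  · exact (sigmaAn_of_an (r.an_D0 _ _)).compl.inter (hprop _)

theorem mem_D1 (c : ℕ → ℕ → ℕ) (n b : ℕ) (lm : ℕ × ℕ) {x : ℕ → ℕ} (hx : x ∈ C) :
    x ∈ r.D1 c n b lm ↔ lm ∈ r.P c n (r.ρ x) (r.ρ x b) := by
  constructor
  · rintro ⟨l, ⟨h1, h2⟩, h3, h4, h5⟩
    have hl : 0 < l.length := by omega
    refine ⟨l.length, fun q => r.ρ x (l.getD q 0), h1, fun q hq => ?_, h2, ?_, ?_, ?_⟩
    · exact ((r.eqv_iff hx).1 (h3 q hq)).2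
    · exact (h4.acc_and_le (r.acc hx _)).2
    · intro q _
      exact r.ρ_le_zero hx _
    · funext k
      have h6 := r.mem_D0 hx hl (u := ofNat (List ℕ) k)
      unfold tau
      rcases h5 k with ⟨h7, h8⟩ | ⟨h7, h8⟩
      · rw [if_pos (h6.1 h7), h8]
      · rw [if_neg (fun h => h7 (h6.2 h)), h8]
  · rintro ⟨n', γ', h1, h2, h3, h4, h5, h6⟩
    -- choose nodes with the given ranks
    have hex : ∀ q, ∃ i, q < n' → r.ρ x i = γ' q := by
      intro q
      by_cases hq : q < n'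
      · obtain ⟨i, hi⟩ := r.exists_ρ_eq hx (h5 q hq)
        exact ⟨i, fun _ => hi⟩
      · exact ⟨0, fun h => absurd h hq⟩
    choose i hi using hex
    have hlen : (List.ofFn fun q : Fin n' => i q).length = n' := by simp
    have hget : ∀ q < n', (List.ofFn fun q : Fin n' => i q).getD q 0 = i q := by
      intro q hq
      simp [List.getD_eq_getElem?_getD, hq]
    refine ⟨List.ofFn fun q : Fin n' => i q, ⟨by rw [hlen]; exact h1, by rw [hlen]; exact h3⟩,
      fun q hq => ?_, ?_, ?_⟩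
    · rw [hget q (by omega), r.eqv_iff hx]
      exact ⟨r.acc hx _, (hi q (by omega)).trans (h2 q hq)⟩
    · rw [hget _ h3]
      refine sim_of_rk_le (r.acc hx _) (r.acc hx _) ?_
      show r.ρ x b ≤ r.ρ x _
      rw [hi _ h3]
      exact h4
    · intro k
      have hl : 0 < (List.ofFn fun q : Fin n' => i q).length := by rw [hlen]; omega
      have h7 := r.mem_D0 hx hl (u := ofNat (List ℕ) k)
      rw [hlen, r.E_congr (γ' := γ') (fun q hq => by rw [hget q hq]; exact hi q hq)] at h7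
      have h8 : tau (r.E n' γ') k = c lm.1 k := by rw [h6]
      unfold tau at h8
      by_cases h9 : (N (ofNat (List ℕ) k) ∩ r.E n' γ').Nonempty
      · rw [if_pos h9] at h8
        exact Or.inl ⟨h7.2 h9, h8.symm⟩
      · rw [if_neg h9] at h8
        exact Or.inr ⟨fun h => h9 (h7.1 h), h8.symm⟩

theorem P_congr (c : ℕ → ℕ → ℕ) {n : ℕ} (hn : 0 < n) {γ γ' : ℕ → Ordinal.{0}}
    (h : ∀ q < n, γ q = γ' q) (β : Ordinal.{0}) : r.P c n γ β = r.P c n γ' β := by
  ext lm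
  unfold P
  simp only [mem_ofPred_eq]
  refine exists_congr fun n' => exists_congr fun δ => and_congr_right fun _ => ?_
  refine and_congr (forall_congr' fun q => imp_congr_right fun hq => by rw [h q hq]) ?_
  rw [h 0 hn]

/-- **Countably many types of demands.** -/
theorem countable_P (hpsp : PSP) (hC : AnalyticSet Cᶜ) (c : ℕ → ℕ → ℕ) (n : ℕ) :
    {S | ∃ γ β, (r.E (n + 1) γ).Nonempty ∧ β ≤ γ 0 ∧ S = r.P c (n + 1) γ β}.Countable := by
  -- for a fixed node `b`
  have hb : ∀ b : ℕ, {S | ∃ x ∈ C, S = r.P c (n + 1) (r.ρ x) (r.ρ x b)}.Countable := by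
    intro b
    let D : ℕ → Set (ℕ → ℕ) := fun k => r.D1 c (n + 1) b k.unpair
    let dec : (ℕ → ℕ) → Set (ℕ × ℕ) := fun y => {lm | y (Nat.pair lm.1 lm.2) = 1}
    have hdec : ∀ x ∈ C, dec (codeOf D x) = r.P c (n + 1) (r.ρ x) (r.ρ x b) := by
      intro x hx
      ext lm
      rw [← r.mem_D1 c (n + 1) b lm hx]
      have hDlm : D (Nat.pair lm.1 lm.2) = r.D1 c (n + 1) b lm := by
        simp only [D, Nat.unpair_pair]
      show codeOf D x (Nat.pair lm.1 lm.2) = 1 ↔ _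
      unfold codeOf
      rw [hDlm]
      constructor
      · intro h
        by_contra hc
        rw [if_neg hc] at h
        exact absurd h (by norm_num)
      · intro h
        rw [if_pos h]
    have hcv := countable_values hpsp r hC D (fun k => r.meas_D1 c (n + 1) b _) ?_
    · refine (hcv.image dec).mono ?_
      rintro S ⟨x, hx, rfl⟩
      exact ⟨_, ⟨x, hx, rfl⟩, hdec x hx⟩
    · intro o ho
      -- the code depends on the ranks of the first nodes and of `b`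
      let enc : Set (ℕ × ℕ) → (ℕ → ℕ) := fun S k => by
        classical exact if k.unpair ∈ S then 1 else 0
      have henc : ∀ x ∈ C, codeOf D x = enc (r.P c (n + 1) (r.ρ x) (r.ρ x b)) := by
        intro x hx
        funext k
        have h1 := r.mem_D1 c (n + 1) b k.unpair hx
        unfold codeOf
        by_cases h3 : x ∈ D k
        · rw [if_pos h3]
          exact (if_pos (h1.1 h3)).symm
        · rw [if_neg h3]
          exact (if_neg (fun h => h3 (h1.2 h))).symm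
      refine (countable_of_dep ho (n + 2)
        (fun γ => enc (r.P c (n + 1) (fun q => γ q) (γ (n + 1)))) ?_).mono ?_
      · intro γ γ' h
        rw [r.P_congr c (Nat.succ_pos n) (γ' := γ') (fun q hq => h q (by omega)),
          h (n + 1) (by omega)]
      · rintro _ ⟨x, ⟨hxC, hx⟩, rfl⟩
        refine ⟨fun q => if q = n + 1 then r.ρ x b else r.ρ x q, fun q => ?_, ?_⟩
        · show (if q = n + 1 then r.ρ x b else r.ρ x q) ≤ o
          split_ifs
          · exact (r.ρ_le_zero hxC b).trans hx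
          · exact (r.ρ_le_zero hxC q).trans hx
        · rw [henc x hxC]
          simp only [if_true]
          rw [r.P_congr c (Nat.succ_pos n) (γ' := r.ρ x)]
          intro q hq
          rw [if_neg (by omega)]
  refine (countable_iUnion hb).mono ?_
  rintro S ⟨γ, β, ⟨x, hxC, hx⟩, hβ, rfl⟩
  rw [mem_iUnion]
  obtain ⟨b, hb'⟩ := r.exists_ρ_eq hxC (o := β) (by rw [hx 0 (Nat.succ_pos n)]; exact hβ)
  refine ⟨b, x, hxC, ?_⟩
  rw [hb', r.P_congr c (Nat.succ_pos n) (fun q hq => (hx q hq).symm)]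

end Rep

end Run7.h626
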