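import Mathlib
import Pool.Agent.Run7.h626.Types

/-!
# Continuous surjections between coanalytic sets: the construction from a system of demands
-/

set_option autoImplicit false
set_option linter.unusedSectionVars false

namespace Run7.h626

open Ordinal Cardinal MeasureTheory Set

/-- Distinct representatives. -/
theorem exists_strictMono_mem (A : ℕ → Set ℕ) (hA : ∀ e, (A e).Infinite) :
    ∃ d : ℕ → ℕ, StrictMono d ∧ ∀ e, d e ∈ A e := by
  have h : ∀ (e : ℕ) (k : ℕ), ∃ d, d ∈ A e ∧ k < d := fun e k => (hA e).exists_gt k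
  choose g hg using h
  let d : ℕ → ℕ := fun e => Nat.rec (g 0 0) (fun e de => g (e + 1) de) e
  refine ⟨d, strictMono_nat_of_lt_succ fun e => (hg (e + 1) (d e)).2, fun e => ?_⟩
  cases e with
  | zero => exact (hg 0 0).1
  | succ e => exact (hg (e + 1) (d e)).1

theorem R_congr {C : Set (ℕ → ℕ)} (r : Rep C) {x y : ℕ → ℕ} {m : ℕ} (h : ∀ i < m, x i = y i)
    {j : ℕ} : R (r.π x) m j ↔ R (r.π y) m j := by
  rcases m with _ | m
  · simp [not_R_zero]
  · rw [R_succ, R_succ, r.dep x y m fun i hi => h i (by omega)]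

section Build

variable {C P : Set (ℕ → ℕ)} (r : Rep C) (s : Rep P) (c : ℕ → ℕ → ℕ) (Θ : ℕ → Set (ℕ × ℕ))

/-- States of the construction. -/
structure State where
  a : ℕ → ℕ
  L : ℕ
  n : ℕ
  z : ℕ → ℕ
  φ : ℕ → ℕ

/-- The invariant of a state. -/
structure Inv (S : State) : Prop where
  a_not : S.a ∉ C
  z_mem : S.z ∈ P
  φ_zero : S.φ 0 = 0
  child : ∀ i < S.n, R (r.π S.a) (S.φ (i + 1)) (S.φ (s.π S.z i))
  φ_le : ∀ i < S.n, S.φ (i + 1) ≤ S.L

/-- `S'` is a possible successor of `S`, with first difference `d`. -/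
structure Suc (S : State) (d : ℕ) (S' : State) : Prop where
  inv : Inv r s S'
  n_eq : S'.n = S.n + 1
  L_le : S.L ≤ d
  d_lt : d < S'.L
  agree : ∀ i < d, S'.a i = S.a i
  diff : S'.a d ≠ S.a d
  z_agree : ∀ i < S.n, S'.z i = S.z i
  φ_agree : ∀ i ≤ S.n, S'.φ i = S.φ i

/-- The point `a'` meets the demand `(k, v)` at `S`, with first difference `d`. -/
def Meets (S : State) (k v d : ℕ) : Prop :=
  ∃ z' ∈ P, (∀ i < S.n, z' i = S.z i) ∧ z' S.n = v ∧
    ∃ a' ∉ C, (∀ i < d, a' i = S.a i) ∧ a' d ≠ S.a d ∧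
      ∃ l m, (l, m) ∈ Θ k ∧ a' ∈ Cl (c l) ∧ R (r.π a') m (S.φ (s.π z' S.n))

theorem exists_next (S : State) (hS : Inv r s S) :
    ∃ nx : ℕ → Option State, (∀ d S', nx d = some S' → Suc r s S d S') ∧
      ∀ k v, {d | Meets r s c Θ S k v d}.Infinite → ∃ d S', nx d = some S' ∧ S'.z S.n = v ∧
        ∃ l, (l, S'.φ (S.n + 1)) ∈ Θ k ∧ S'.a ∈ Cl (c l) := by
  classical
  -- demands are coded by numbers
  let A : ℕ → Set ℕ := fun e =>
    if {d | Meets r s c Θ S e.unpair.1 e.unpair.2 d}.Infinite then
      {d | Meets r s c Θ S e.unpair.1 e.unpair.2 d ∧ S.L ≤ d} else univ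
  have hA : ∀ e, (A e).Infinite := by
    intro e
    by_cases h : {d | Meets r s c Θ S e.unpair.1 e.unpair.2 d}.Infinite
    · simp only [A, if_pos h]
      have : {d | Meets r s c Θ S e.unpair.1 e.unpair.2 d ∧ S.L ≤ d} =
          {d | Meets r s c Θ S e.unpair.1 e.unpair.2 d} \ Iio S.L := by
        ext d
        simp
      rw [this]
      exact h.sdiff (finite_Iio _)
    · simp only [A, if_neg h]
      exact infinite_univ
  obtain ⟨d, hd, hdA⟩ := exists_strictMono_mem A hA
  -- for every demand that can be met infinitely often, choose the successor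
  have hsuc : ∀ e, {d | Meets r s c Θ S e.unpair.1 e.unpair.2 d}.Infinite →
      ∃ S', Suc r s S (d e) S' ∧ S'.z S.n = e.unpair.2 ∧
        ∃ l, (l, S'.φ (S.n + 1)) ∈ Θ e.unpair.1 ∧ S'.a ∈ Cl (c l) := by
    intro e he
    have h1 : d e ∈ {d | Meets r s c Θ S e.unpair.1 e.unpair.2 d ∧ S.L ≤ d} := by
      have := hdA e
      simp only [A, if_pos he] at this
      exact this
    obtain ⟨⟨z', hz', hzz, hzv, a', ha', hagree, hdiff, l, m, hlm, hal, hR⟩, hL⟩ := h1
    have hzπ : ∀ i < S.n, s.π z' i = s.π S.z i := fun i hi =>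
      s.dep _ _ _ fun q hq => hzz q (by omega)
    have hle := s.le
    refine ⟨⟨a', max (d e + 1) (max m S.L), S.n + 1, z', Function.update S.φ (S.n + 1) m⟩,
      ⟨⟨ha', hz', ?_, ?_, ?_⟩, rfl, hL, ?_, hagree, hdiff, hzz, ?_⟩, hzv, l, ?_, hal⟩
    · show Function.update S.φ (S.n + 1) m 0 = 0
      rw [Function.update_of_ne (by omega)]
      exact hS.φ_zero
    · intro i hi
      simp only at hi ⊢
      rcases Nat.lt_or_ge i S.n with h | h
      · rw [Function.update_of_ne (by omega), Function.update_of_ne (by have := hle z' i; omega),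
          hzπ i h]
        refine (R_congr r fun q hq => ?_).2 (hS.child i h)
        have := hS.φ_le i h
        exact hagree q (by omega)
      · have : i = S.n := by omega
        subst this
        rw [Function.update_self, Function.update_of_ne (by have := hle z' S.n; omega)]
        exact hR
    · intro i hi
      simp only at hi ⊢
      rcases Nat.lt_or_ge i S.n with h | h
      · rw [Function.update_of_ne (by omega)]
        have := hS.φ_le i h
        omega
      · have : i = S.n := by omega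
        subst this
        rw [Function.update_self]
        omega
    · show d e < max (d e + 1) (max m S.L)
      omega
    · intro i hi
      show Function.update S.φ (S.n + 1) m i = S.φ i
      rw [Function.update_of_ne (by omega)]
    · show (l, Function.update S.φ (S.n + 1) m (S.n + 1)) ∈ _
      rw [Function.update_self]
      exact hlm
  have hne : Nonempty State := ⟨S⟩
  choose! F hF using hsuc
  refine ⟨fun q => if h : ∃ e, d e = q ∧
      {d | Meets r s c Θ S e.unpair.1 e.unpair.2 d}.Infinite then some (F h.choose) else none,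
    ?_, ?_⟩
  · intro q S' hq
    simp only at hq
    split_ifs at hq with h
    have h1 := h.choose_spec
    have h2 := (hF _ h1.2).1
    rw [h1.1] at h2
    rw [← Option.some.inj hq]
    exact h2
  · intro k v hkv
    have hkv' : {d | Meets r s c Θ S (Nat.pair k v).unpair.1 (Nat.pair k v).unpair.2 d}.Infinite := by
      simpa using hkv
    have h : ∃ e, d e = d (Nat.pair k v) ∧
      {d | Meets r s c Θ S e.unpair.1 e.unpair.2 d}.Infinite := ⟨_, rfl, hkv'⟩
    have h1 : h.choose = Nat.pair k v := hd.injective h.choose_spec.1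
    have h2 := (hF _ hkv').2
    simp only [Nat.unpair_pair] at h2
    refine ⟨d (Nat.pair k v), F (Nat.pair k v), ?_, h2⟩
    simp only
    rw [dif_pos h, h1]

/-- the transition function -/
noncomputable def next (S : State) : ℕ → Option State := by
  classical exact
    if h : Inv r s S then (exists_next r s c Θ S h).choose else fun _ => none

theorem next_suc {S : State} {d : ℕ} {S' : State} (h : next r s c Θ S d = some S') :
    Suc r s S d S' := by
  unfold next at h
  split_ifs at h with hS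
  exact (exists_next r s c Θ S hS).choose_spec.1 d S' h

theorem next_meets {S : State} (hS : Inv r s S) {k v : ℕ}
    (h : {d | Meets r s c Θ S k v d}.Infinite) :
    ∃ d S', next r s c Θ S d = some S' ∧ S'.z S.n = v ∧
        ∃ l, (l, S'.φ (S.n + 1)) ∈ Θ k ∧ S'.a ∈ Cl (c l) := by
  unfold next
  rw [dif_pos hS]
  exact (exists_next r s c Θ S hS).choose_spec.2 k v h

/-- one step of the computation of `f x` -/
noncomputable def step (x : ℕ → ℕ) (S : State) : Option State := by
  classical exact
    if h : ∃ d, x d ≠ S.a d then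
      (next r s c Θ S (Nat.find h)).bind fun S' =>
        if ∀ i < S'.L, x i = S'.a i then some S' else none
    else none

theorem step_suc {x : ℕ → ℕ} {S S' : State} (h : step r s c Θ x S = some S') :
    ∃ d, Suc r s S d S' ∧ ∀ i < S'.L, x i = S'.a i := by
  classical
  unfold step at h
  split_ifs at h with h1
  rw [Option.bind_eq_some_iff] at h
  obtain ⟨T, hT, h2⟩ := h
  split_ifs at h2 with h3
  rw [← Option.some.inj h2]
  exact ⟨_, next_suc r s c Θ hT, h3⟩

theorem step_of_next {x : ℕ → ℕ} {S S' : State} {d : ℕ} (h : next r s c Θ S d = some S')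
    (hx : ∀ i < S'.L, x i = S'.a i) : step r s c Θ x S = some S' := by
  classical
  have hs := next_suc r s c Θ h
  have hne : ∃ d, x d ≠ S.a d := ⟨d, by rw [hx d hs.d_lt]; exact hs.diff⟩
  have hfind : Nat.find hne = d := by
    rw [Nat.find_eq_iff]
    refine ⟨by rw [hx d hs.d_lt]; exact hs.diff, fun i hi => ?_⟩
    rw [not_not, hx i (hi.trans hs.d_lt)]
    exact hs.agree i hi
  unfold step
  rw [dif_pos hne, Option.bind_eq_some_iff]
  refine ⟨S', ?_, if_pos hx⟩
  convert h using 2

theorem step_congr {x : ℕ → ℕ} {S : State} (hx : x ≠ S.a) :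
    ∃ k, ∀ y : ℕ → ℕ, (∀ i < k, y i = x i) → step r s c Θ y S = step r s c Θ x S := by
  classical
  have hne : ∃ d, x d ≠ S.a d := Function.ne_iff.1 hx
  rcases hnx : next r s c Θ S (Nat.find hne) with _ | S'
  · refine ⟨Nat.find hne + 1, fun y hy => ?_⟩
    have hne' : ∃ d, y d ≠ S.a d := ⟨_, by rw [hy _ (Nat.lt_succ_self _)]; exact Nat.find_spec hne⟩
    have hfind : Nat.find hne' = Nat.find hne := by
      rw [Nat.find_eq_iff]
      refine ⟨by rw [hy _ (Nat.lt_succ_self _)]; exact Nat.find_spec hne, fun i hi => ?_⟩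
      rw [hy i (by omega)]
      exact Nat.find_min hne hi
    unfold step
    rw [dif_pos hne', dif_pos hne, hfind, hnx]
    rfl
  · refine ⟨max (Nat.find hne + 1) S'.L, fun y hy => ?_⟩
    have hne' : ∃ d, y d ≠ S.a d :=
      ⟨_, by rw [hy (Nat.find hne) (by omega)]; exact Nat.find_spec hne⟩
    have hfind : Nat.find hne' = Nat.find hne := by
      rw [Nat.find_eq_iff]
      refine ⟨by rw [hy _ (by omega)]; exact Nat.find_spec hne, fun i hi => ?_⟩
      rw [hy i (by omega)]
      exact Nat.find_min hne hi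
    unfold step
    rw [dif_pos hne', dif_pos hne, hfind, hnx]
    simp only [Option.bind_some]
    have : (∀ i < S'.L, y i = S'.a i) ↔ ∀ i < S'.L, x i = S'.a i := by
      refine forall_congr' fun i => imp_congr_right fun hi => ?_
      rw [hy i (by omega)]
    by_cases h : ∀ i < S'.L, x i = S'.a i
    · rw [if_pos h, if_pos (this.2 h)]
    · rw [if_neg h, if_neg fun h' => h (this.1 h')]

/-- the computation of `f x` -/
noncomputable def run (S₀ : State) (x : ℕ → ℕ) : ℕ → State × Bool
  | 0 => (S₀, true)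
  | m + 1 =>
    if (run S₀ x m).2 = true then
      match step r s c Θ x (run S₀ x m).1 with
      | some S' => (S', true)
      | none => ((run S₀ x m).1, false)
    else run S₀ x m

/-- the function -/
noncomputable def fn (S₀ : State) (x : ℕ → ℕ) (i : ℕ) : ℕ := (run r s c Θ S₀ x (i + 1)).1.z i

variable {r s c Θ}

theorem run_succ_alive {S₀ : State} {x : ℕ → ℕ} {m : ℕ}
    (h : (run r s c Θ S₀ x (m + 1)).2 = true) : (run r s c Θ S₀ x m).2 = true ∧
      step r s c Θ x (run r s c Θ S₀ x m).1 = some (run r s c Θ S₀ x (m + 1)).1 := by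
  rw [run] at h ⊢
  split_ifs at h ⊢ with h1
  · rcases h2 : step r s c Θ x (run r s c Θ S₀ x m).1 with _ | S'
    · rw [h2] at h
      simp at h
    · exact ⟨h1, rfl⟩
  · exact absurd h h1

theorem run_dead {S₀ : State} {x : ℕ → ℕ} {m : ℕ} (h : (run r s c Θ S₀ x m).2 = false) :
    run r s c Θ S₀ x (m + 1) = run r s c Θ S₀ x m := by
  rw [run, if_neg (by rw [h]; simp)]

theorem run_inv {S₀ : State} (h0 : Inv r s S₀) (x : ℕ → ℕ) (m : ℕ) :
    Inv r s (run r s c Θ S₀ x m).1 := by
  induction m with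
  | zero => exact h0
  | succ m ih =>
    rw [run]
    split_ifs with h1
    · rcases h2 : step r s c Θ x (run r s c Θ S₀ x m).1 with _ | S'
      · exact ih
      · obtain ⟨d, hd, -⟩ := step_suc r s c Θ h2
        exact hd.inv
    · exact ih

theorem run_n {S₀ : State} (h0 : S₀.n = 0) (x : ℕ → ℕ) (m : ℕ)
    (h : (run r s c Θ S₀ x m).2 = true) : (run r s c Θ S₀ x m).1.n = m := by
  induction m with
  | zero => exact h0
  | succ m ih =>
    obtain ⟨h1, h2⟩ := run_succ_alive h
    obtain ⟨d, hd, -⟩ := step_suc r s c Θ h2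
    rw [hd.n_eq, ih h1]

/-- The initial segments of the values do not change. -/
theorem run_z_step {S₀ : State} (h0 : S₀.n = 0) (x : ℕ → ℕ) (m : ℕ) {i : ℕ} (hi : i < m) :
    (run r s c Θ S₀ x (m + 1)).1.z i = (run r s c Θ S₀ x m).1.z i := by
  rcases h : (run r s c Θ S₀ x (m + 1)).2 with _ | _
  · -- dead at stage `m + 1`
    rw [run] at h ⊢
    split_ifs at h ⊢ with h1
    · rcases h2 : step r s c Θ x (run r s c Θ S₀ x m).1 with _ | S'
      · rfl
      · rw [h2] at h
        simp at h
    · rfl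
  · obtain ⟨h1, h2⟩ := run_succ_alive h
    obtain ⟨d, hd, -⟩ := step_suc r s c Θ h2
    exact hd.z_agree i (by rw [run_n h0 x m h1]; exact hi)

theorem run_z {S₀ : State} (h0 : S₀.n = 0) (x : ℕ → ℕ) (m k : ℕ) {i : ℕ} (hi : i < m) :
    (run r s c Θ S₀ x (m + k)).1.z i = (run r s c Θ S₀ x m).1.z i := by
  induction k with
  | zero => rfl
  | succ k ih => rw [← add_assoc, run_z_step h0 x (m + k) (by omega), ih]

theorem fn_eq {S₀ : State} (h0 : S₀.n = 0) (x : ℕ → ℕ) (m : ℕ) {i : ℕ} (hi : i < m) :
    fn r s c Θ S₀ x i = (run r s c Θ S₀ x m).1.z i := by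
  obtain ⟨k, rfl⟩ : ∃ k, m = i + 1 + k := ⟨m - (i + 1), by omega⟩
  rw [run_z h0 x (i + 1) k (by omega)]
  rfl

theorem fn_mem {S₀ : State} (hinv : Inv r s S₀) (h0 : S₀.n = 0) {x : ℕ → ℕ} (hx : x ∈ C) :
    fn r s c Θ S₀ x ∈ P := by
  by_cases hdead : ∃ m, (run r s c Θ S₀ x m).2 = false
  · obtain ⟨m, hm⟩ := hdead
    have hconst : ∀ k, run r s c Θ S₀ x (m + k) = run r s c Θ S₀ x m := by
      intro k
      induction k with
      | zero => rfl
      | succ k ih =>
        rw [← add_assoc, run_dead (by rw [ih]; exact hm), ih]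
    have : fn r s c Θ S₀ x = (run r s c Θ S₀ x m).1.z := by
      funext i
      rw [fn_eq h0 x (m + (i + 1)) (by omega), hconst]
    rw [this]
    exact (run_inv hinv x m).z_mem
  · push Not at hdead
    have hal : ∀ m, (run r s c Θ S₀ x m).2 = true := fun m => by
      simpa using hdead m
    -- the map of the nodes
    let S : ℕ → State := fun m => (run r s c Θ S₀ x m).1
    have hSn : ∀ m, (S m).n = m := fun m => run_n h0 x m (hal m)
    have hsuc : ∀ m, ∃ d, Suc r s (S m) d (S (m + 1)) ∧ ∀ i < (S (m + 1)).L, x i = (S (m + 1)).a i :=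
      fun m => step_suc r s c Θ (run_succ_alive (hal (m + 1))).2
    have hφ : ∀ m k i, i ≤ m → (S (m + k)).φ i = (S m).φ i := by
      intro m k i hi
      induction k with
      | zero => rfl
      | succ k ih =>
        obtain ⟨d, hd, -⟩ := hsuc (m + k)
        rw [← ih, ← add_assoc]
        exact hd.φ_agree i (by rw [hSn]; omega)
    let φ : ℕ → ℕ := fun i => (S i).φ i
    have hφS : ∀ m i, i ≤ m → (S m).φ i = φ i := by
      intro m i hi
      obtain ⟨k, rfl⟩ := Nat.exists_eq_add_of_le hi
      exact hφ i k i le_rfl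
    have hchild : ∀ i, R (r.π x) (φ (i + 1)) (φ (s.π (fn r s c Θ S₀ x) i)) := by
      intro i
      have hinvi := run_inv (c := c) (Θ := Θ) hinv x (i + 1)
      have h1 := hinvi.child i (by rw [run_n h0 x (i + 1) (hal _)]; omega)
      have h2 := hinvi.φ_le i (by rw [run_n h0 x (i + 1) (hal _)]; omega)
      have h3 : s.π (fn r s c Θ S₀ x) i = s.π (S (i + 1)).z i :=
        s.dep _ _ _ fun q hq => fn_eq h0 x (i + 1) (by omega)
      have h4 : (S (i + 1)).φ (i + 1) = φ (i + 1) := hφS _ _ le_rfl
      have h5 : (S (i + 1)).φ (s.π (S (i + 1)).z i) = φ (s.π (S (i + 1)).z i) :=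
        hφS _ _ (by have := s.le (S (i + 1)).z i; omega)
      rw [h3, ← h4, ← h5]
      obtain ⟨d, hd, hx'⟩ := hsuc i
      exact (R_congr r fun q hq => hx' q (lt_of_lt_of_le hq h2)).2 h1
    rw [s.mem]
    refine (Sim.acc_and_le (?_ : Sim (R (s.π (fn r s c Θ S₀ x))) 0 (R (r.π x)) 0)
      (r.acc hx 0)).1
    refine ⟨fun i j => j = φ i, ?_, ?_⟩
    · show 0 = (S 0).φ 0
      exact hinv.φ_zero.symm
    · rintro i _ rfl i' hi'
      obtain ⟨n, rfl, hn⟩ := hi'
      refine ⟨φ (n + 1), ?_, rfl⟩
      rw [← hn]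
      exact hchild n

theorem run_congr {S₀ : State} (hinv : Inv r s S₀) {x : ℕ → ℕ} (hx : x ∈ C) (m : ℕ) :
    ∃ k, ∀ y : ℕ → ℕ, (∀ i < k, y i = x i) → run r s c Θ S₀ y m = run r s c Θ S₀ x m := by
  induction m with
  | zero => exact ⟨0, fun _ _ => rfl⟩
  | succ m ih =>
    obtain ⟨k, hk⟩ := ih
    have hne : x ≠ (run r s c Θ S₀ x m).1.a := by
      intro h
      apply (run_inv (c := c) (Θ := Θ) hinv x m).a_not
      rw [← h]
      exact hx
    obtain ⟨k', hk'⟩ := step_congr r s c Θ hne
    refine ⟨max k k', fun y hy => ?_⟩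
    have h1 := hk y fun i hi => hy i (by omega)
    have h2 := hk' y fun i hi => hy i (by omega)
    rw [run, run, h1, h2]

theorem fn_continuousOn {S₀ : State} (hinv : Inv r s S₀) :
    ContinuousOn (fn r s c Θ S₀) C := by
  intro x hx
  rw [ContinuousWithinAt, tendsto_pi_nhds]
  intro i
  obtain ⟨k, hk⟩ := run_congr (c := c) (Θ := Θ) hinv hx (i + 1)
  apply tendsto_const_nhds.congr'
  filter_upwards [mem_nhdsWithin_of_mem_nhds ((isOpen_agree x k).mem_nhds (by simp))] with y hy
  show (run r s c Θ S₀ x (i + 1)).1.z i = (run r s c Θ S₀ y (i + 1)).1.z i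
  rw [hk y hy]

/-- If the states `S m` follow each other and converge to a point of `C`, then the value at this
point is determined by the states. -/
theorem fn_of_states {S₀ : State} (h0 : S₀.n = 0) {x : ℕ → ℕ} (S : ℕ → State) (hS0 : S 0 = S₀)
    (hS : ∀ m, ∃ d, next r s c Θ (S m) d = some (S (m + 1)))
    (hx : ∀ m, ∀ i < (S m).L, x i = (S m).a i) (i : ℕ) :
    fn r s c Θ S₀ x i = (S (i + 1)).z i := by
  have hrun : ∀ m, run r s c Θ S₀ x m = (S m, true) := by
    intro m
    induction m with
    | zero => rw [hS0]; rfl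
    | succ m ih =>
      obtain ⟨d, hd⟩ := hS m
      have h1 := step_of_next r s c Θ hd (hx (m + 1))
      rw [run, ih]
      simp only [if_true, h1]
  rw [fn_eq h0 x (i + 1) (by omega), hrun]

end Build

end Run7.h626
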