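import Mathlib
import Pool.Agent.Run7.h626.Build

/-!
# If all uncountable coanalytic sets have perfect subsets, then every non-Borel coanalytic set
maps continuously onto every nonempty coanalytic set
-/

set_option autoImplicit false
set_option linter.unusedSectionVars false

namespace Run7.h626

open Ordinal Cardinal MeasureTheory Set Encodable Denumerable

variable {C P : Set (ℕ → ℕ)}

theorem Rep.ρ_lt_omega1 (r : Rep C) (x : ℕ → ℕ) (i : ℕ) : r.ρ x i < ω₁ := rk_lt_omega1 _ _

/-- The ranks of a coanalytic set that is not analytic are unbounded. -/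
theorem Rep.unbounded (r : Rep C) (hC : ¬ AnalyticSet C) {o : Ordinal.{0}} (ho : o < ω₁) :
    ∃ x ∈ C, o < r.ρ x 0 := by
  by_contra hcon
  push Not at hcon
  apply hC
  obtain ⟨S, j, hj, hoj⟩ := exists_rel_rk ho
  have h1 : C = {x | Sim (R (r.π x)) 0 S j} := by
    ext x
    rw [mem_ofPred_eq, sim_iff hj, ← r.mem]
    exact ⟨fun hx => ⟨hx, (hcon x hx).trans hoj⟩, fun h => h.1⟩
  rw [h1]
  exact an_sim (r := fun x => R (r.π x)) (s := fun _ => S) r.measR
    (fun a b => MeasurableSet.const _) 0 j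

/-- Boundedness for subsets of `C`. -/
theorem Rep.bounded (r : Rep C) {A : Set (ℕ → ℕ)} (hA : AnalyticSet A) (hAC : A ⊆ C) :
    ∃ o < ω₁, ∀ x ∈ A, r.ρ x 0 ≤ o := by
  obtain ⟨o, ho, h⟩ := bounded_of_analytic (hA.image_of_continuous r.continuous) (by
    rintro _ ⟨x, hx, rfl⟩
    exact (r.mem x).1 (hAC hx))
  exact ⟨o, ho, fun x hx => h _ ⟨x, hx, rfl⟩⟩

theorem exists_enum {α : Type} {S : Set α} (hS : S.Countable) (a : α) :
    ∃ c : ℕ → α, S ⊆ range c := by
  obtain ⟨c, hc⟩ := (hS.union (countable_singleton a)).exists_eq_range ⟨a, Or.inr rfl⟩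
  exact ⟨c, by rw [← hc]; exact subset_union_left⟩

/-- A state of the play that reaches a given point. -/
structure Play (r : Rep C) (s : Rep P) (α : Ordinal.{0}) (z : ℕ → ℕ) where
  S : State
  nn : ℕ
  γ : ℕ → Ordinal.{0}
  inv : Inv r s S
  z_agree : ∀ i < S.n, S.z i = z i
  nn_pos : 0 < nn
  large : α < γ 0
  a_mem : S.a ∈ Cl (tau (r.E nn γ))
  φ_lt : ∀ i ≤ S.n, S.φ i < nn
  le : ∀ i ≤ S.n, s.ρ z i ≤ γ (S.φ i)

theorem main_surj (hpsp : PSP) (hCc : AnalyticSet Cᶜ) (hC : ¬ AnalyticSet C) (hPc : AnalyticSet Pᶜ)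
    (hP : P.Nonempty) : ∃ f : (ℕ → ℕ) → (ℕ → ℕ), ContinuousOn f C ∧ f '' C = P := by
  obtain ⟨r⟩ := exists_rep hCc
  obtain ⟨s⟩ := exists_rep hPc
  -- the closed sets
  obtain ⟨c, hc⟩ : ∃ c : ℕ → (ℕ → ℕ), ∀ n γ, 0 < n → (r.E n γ).Nonempty →
      ∃ l, tau (r.E n γ) = c l := by
    have h1 : (⋃ n, {c | ∃ γ, (r.E (n + 1) γ).Nonempty ∧ c = tau (r.E (n + 1) γ)}).Countable :=
      countable_iUnion fun n => r.countable_tau hpsp hCc n
    obtain ⟨c, hc⟩ := exists_enum h1 (fun _ => 0)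
    refine ⟨c, fun n γ hn hne => ?_⟩
    obtain ⟨n, rfl⟩ : ∃ n', n = n' + 1 := ⟨n - 1, by omega⟩
    obtain ⟨l, hl⟩ := hc (mem_iUnion.2 ⟨n, γ, hne, rfl⟩)
    exact ⟨l, hl.symm⟩
  -- the types of demands
  obtain ⟨Θ, hΘ⟩ : ∃ Θ : ℕ → Set (ℕ × ℕ), ∀ n γ β, 0 < n → (r.E n γ).Nonempty → β ≤ γ 0 →
      ∃ k, r.P c n γ β = Θ k := by
    have h1 : (⋃ n, {S | ∃ γ β, (r.E (n + 1) γ).Nonempty ∧ β ≤ γ 0 ∧
        S = r.P c (n + 1) γ β}).Countable :=
      countable_iUnion fun n => r.countable_P hpsp hCc c n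
    obtain ⟨Θ, hΘ⟩ := exists_enum h1 ∅
    refine ⟨Θ, fun n γ β hn hne hβ => ?_⟩
    obtain ⟨n, rfl⟩ : ∃ n', n = n' + 1 := ⟨n - 1, by omega⟩
    obtain ⟨l, hl⟩ := hΘ (mem_iUnion.2 ⟨n, γ, β, hne, hβ, rfl⟩)
    exact ⟨l, hl.symm⟩
  -- the bound for the closed sets that are contained in `C`
  obtain ⟨α, hα, hαb⟩ : ∃ α < ω₁, ∀ l (u : List ℕ), Cl (c l) ∩ N u ⊆ C →
      ∀ x ∈ Cl (c l) ∩ N u, r.ρ x 0 ≤ α := by
    have h1 : ∀ q : ℕ × List ℕ, ∃ o < ω₁, Cl (c q.1) ∩ N q.2 ⊆ C →
        ∀ x ∈ Cl (c q.1) ∩ N q.2, r.ρ x 0 ≤ o := by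
      intro q
      by_cases h : Cl (c q.1) ∩ N q.2 ⊆ C
      · have han : AnalyticSet (Cl (c q.1) ∩ N q.2) :=
          ((isClosed_Cl _).measurableSet.inter (isOpen_N _).measurableSet).analyticSet
        obtain ⟨o, ho, hb⟩ := r.bounded han h
        exact ⟨o, ho, fun _ => hb⟩
      · exact ⟨0, omega_pos 1, fun h' => absurd h' h⟩
    choose o ho hob using h1
    refine ⟨⨆ q, o q, Ordinal.iSup_lt_omega_one ho, fun l u hlu x hx => ?_⟩
    exact (hob (l, u) hlu x hx).trans (Ordinal.le_iSup o (l, u))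
  -- points outside `C`
  have hout : ∀ n γ (u : List ℕ), 0 < n → α < γ 0 → (r.E n γ ∩ N u).Nonempty →
      ∃ a ∈ Cl (tau (r.E n γ)) ∩ N u, a ∉ C := by
    rintro n γ u hn hγ ⟨x, hxE, hxu⟩
    by_contra hcon
    push Not at hcon
    obtain ⟨l, hl⟩ := hc n γ hn ⟨x, hxE⟩
    have h1 := hαb l u (fun a ha => hcon a (by rw [hl]; exact ha)) x
      ⟨by rw [← hl]; exact subset_Cl_tau hxE, hxu⟩
    rw [hxE.2 0 hn] at h1
    exact absurd hγ (not_lt.2 h1)
  -- a code that occurs unboundedly often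
  obtain ⟨l₀, hl₀⟩ : ∃ l₀, ∀ o < ω₁, ∃ γ : ℕ → Ordinal.{0}, o < γ 0 ∧ (r.E 1 γ).Nonempty ∧
      tau (r.E 1 γ) = c l₀ := by
    by_contra hcon
    push Not at hcon
    choose o ho hob using hcon
    obtain ⟨x, hxC, hx⟩ := r.unbounded hC (Ordinal.iSup_lt_omega_one ho)
    obtain ⟨l, hl⟩ := hc 1 (r.ρ x) one_pos ⟨x, hxC, fun _ _ => rfl⟩
    exact hob l (r.ρ x) (lt_of_le_of_lt (Ordinal.le_iSup o l) hx) ⟨x, hxC, fun _ _ => rfl⟩ hl
  -- the initial state
  obtain ⟨γ₀, hγ₀, ⟨x₀, hx₀⟩, hγ₀l⟩ := hl₀ α hα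
  obtain ⟨a₀, ⟨ha₀, -⟩, ha₀C⟩ := hout 1 γ₀ [] one_pos hγ₀ ⟨x₀, hx₀, by simp [N, pre]⟩
  obtain ⟨z₀, hz₀⟩ := hP
  let S₀ : State := ⟨a₀, 0, 0, z₀, fun _ => 0⟩
  have hS₀ : Inv r s S₀ := ⟨ha₀C, hz₀, rfl, fun i hi => absurd hi (Nat.not_lt_zero i),
    fun i hi => absurd hi (Nat.not_lt_zero i)⟩
  refine ⟨fn r s c Θ S₀, fn_continuousOn hS₀, Subset.antisymm ?_ ?_⟩
  · rintro _ ⟨x, hx, rfl⟩
    exact fn_mem hS₀ rfl hx
  · intro z hz
    -- the play
    have hstep : ∀ p : Play r s α z, ∃ p' : Play r s α z, (∃ d, next r s c Θ p.S d = some p'.S ∧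
        Suc r s p.S d p'.S) ∧ p.nn < p'.nn ∧ ∀ q < p.nn, p'.γ q = p.γ q := by
      intro p
      -- the demand
      have hj : s.π z p.S.n ≤ p.S.n := s.le z p.S.n
      have hβ : s.ρ z (p.S.n + 1) < s.ρ z (s.π z p.S.n) := rk_lt (s.acc hz _) (R_succ.2 rfl)
      have hβ2 : s.ρ z (p.S.n + 1) < p.γ (p.S.φ (s.π z p.S.n)) := lt_of_lt_of_le hβ (p.le _ hj)
      have hne : (r.E p.nn p.γ).Nonempty := by
        obtain ⟨y, hy, -⟩ := mem_Cl_tau.1 p.a_mem 0
        exact ⟨y, hy⟩
      have hβ3 : s.ρ z (p.S.n + 1) ≤ p.γ 0 := by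
        obtain ⟨y, hyC, hy⟩ := hne
        have h1 := r.ρ_le_zero hyC (p.S.φ (s.π z p.S.n))
        rw [hy _ (p.φ_lt _ hj), hy _ p.nn_pos] at h1
        exact hβ2.le.trans h1
      obtain ⟨k, hk⟩ := hΘ p.nn p.γ _ p.nn_pos hne hβ3
      have hinf : {d | Meets r s c Θ p.S k (z p.S.n) d}.Infinite := by
        rw [Set.infinite_iff_exists_gt]
        intro L
        obtain ⟨y, ⟨hyC, hy⟩, hya⟩ := mem_Cl_tau.1 p.a_mem (L + 1)
        have hne' : y ≠ p.S.a := by
          rintro rfl
          exact p.inv.a_not hyC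
        -- the first difference
        obtain ⟨d, hd1, hd2⟩ : ∃ d, y d ≠ p.S.a d ∧ ∀ i < d, y i = p.S.a i := by
          classical
          have h1 := Function.ne_iff.1 hne'
          exact ⟨Nat.find h1, Nat.find_spec h1, fun i hi => not_not.1 (Nat.find_min h1 hi)⟩
        have hLd : L < d := by
          by_contra h
          exact hd1 (hya d (by omega))
        have hyφ : s.ρ z (p.S.n + 1) < r.ρ y (p.S.φ (s.π z p.S.n)) := by
          rw [hy _ (p.φ_lt _ hj)]
          exact hβ2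
        obtain ⟨m, hm1, hm2⟩ := exists_le_rk (r.acc hyC _) hyφ
        let n' := max p.nn m + 1
        have hyE : y ∈ r.E n' (r.ρ y) := ⟨hyC, fun _ _ => rfl⟩
        obtain ⟨l, hl⟩ := hc n' (r.ρ y) (Nat.succ_pos _) ⟨y, hyE⟩
        have hlm : (l, m) ∈ Θ k := by
          rw [← hk]
          refine ⟨n', r.ρ y, by omega, hy, by omega, hm2, fun q _ => ?_, hl⟩
          rw [← hy 0 p.nn_pos]
          exact r.ρ_le_zero hyC q
        obtain ⟨a', ⟨ha'1, ha'2⟩, ha'C⟩ := hout n' (r.ρ y) (pre y (max (d + 1) m))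
          (Nat.succ_pos _) (by rw [hy 0 p.nn_pos]; exact p.large) ⟨y, hyE, by simp [N]⟩
        have ha'y : ∀ i < max (d + 1) m, a' i = y i := by
          have h1 : pre a' (pre y (max (d + 1) m)).length = pre y (max (d + 1) m) := ha'2
          rw [length_pre] at h1
          exact pre_eq_pre.1 h1
        refine ⟨d, ⟨z, hz, fun i hi => (p.z_agree i hi).symm, rfl, a', ha'C, fun i hi => ?_, ?_,
          l, m, hlm, by rw [← hl]; exact ha'1, ?_⟩, hLd⟩
        · rw [ha'y i (by omega)]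
          exact hd2 i hi
        · rw [ha'y d (by omega)]
          exact hd1
        · exact (R_congr r fun i hi => ha'y i (by omega)).2 hm1
      obtain ⟨d, S', hS', hz', l, hl, hal⟩ := next_meets r s c Θ p.inv hinf
      have hsuc := next_suc r s c Θ hS'
      rw [← hk] at hl
      obtain ⟨n', γ', h1, h2, h3, h4, h5, h6⟩ := hl
      simp only at h3 h4 h6
      refine ⟨⟨S', n', γ', hsuc.inv, ?_, by omega, ?_, ?_, ?_, ?_⟩, ⟨d, hS', hsuc⟩, h1, h2⟩
      · intro i hi
        rw [hsuc.n_eq] at hi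
        rcases Nat.lt_or_ge i p.S.n with h | h
        · rw [hsuc.z_agree i h, p.z_agree i h]
        · have : i = p.S.n := by omega
          rw [this, hz']
      · rw [h2 0 p.nn_pos]
        exact p.large
      · rw [h6]
        exact hal
      · intro i hi
        rw [hsuc.n_eq] at hi
        rcases Nat.lt_or_ge i (p.S.n + 1) with h | h
        · rw [hsuc.φ_agree i (by omega)]
          exact (p.φ_lt i (by omega)).trans h1
        · have : i = p.S.n + 1 := by omega
          rw [this]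
          exact h3
      · intro i hi
        rw [hsuc.n_eq] at hi
        rcases Nat.lt_or_ge i (p.S.n + 1) with h | h
        · rw [hsuc.φ_agree i (by omega), h2 _ (p.φ_lt i (by omega))]
          exact p.le i (by omega)
        · have : i = p.S.n + 1 := by omega
          rw [this]
          exact h4
    choose nxt hnxt1 hnxt2 hnxt3 using hstep
    obtain ⟨γ₁, hγ₁, hγ₁ne, hγ₁l⟩ := hl₀ (max α (s.ρ z 0)) (max_lt hα (s.ρ_lt_omega1 z 0))
    let p₀ : Play r s α z := ⟨S₀, 1, γ₁, hS₀, fun i hi => absurd hi (Nat.not_lt_zero i), one_pos,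
      (le_max_left _ _).trans_lt hγ₁, by rw [hγ₁l, ← hγ₀l]; exact ha₀,
      fun i _ => one_pos, fun i hi => by
        have : i = 0 := Nat.le_zero.1 hi
        rw [this]
        exact ((le_max_right _ _).trans_lt hγ₁).le⟩
    let p : ℕ → Play r s α z := fun m => Nat.rec p₀ (fun _ q => nxt q) m
    have hp0 : p 0 = p₀ := rfl
    have hps : ∀ m, p (m + 1) = nxt (p m) := fun m => rfl
    have hsucp : ∀ m, ∃ d, next r s c Θ (p m).S d = some (p (m + 1)).S ∧
        Suc r s (p m).S d (p (m + 1)).S := fun m => hnxt1 (p m)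
    have hnn : ∀ m, m < (p m).nn := by
      intro m
      induction m with
      | zero => exact (p 0).nn_pos
      | succ m ih =>
        have := hnxt2 (p m)
        rw [hps]
        omega
    have hL : ∀ m, m ≤ (p m).S.L := by
      intro m
      induction m with
      | zero => exact Nat.zero_le _
      | succ m ih =>
        obtain ⟨d, -, hd⟩ := hsucp m
        have h1 := hd.L_le
        have h2 := hd.d_lt
        omega
    have hLmono : ∀ m k, (p m).S.L ≤ (p (m + k)).S.L := by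
      intro m k
      induction k with
      | zero => exact le_rfl
      | succ k ih =>
        obtain ⟨d, -, hd⟩ := hsucp (m + k)
        have h1 := hd.L_le
        have h2 := hd.d_lt
        rw [← add_assoc]
        omega
    have hagree : ∀ m k, ∀ i < (p m).S.L, (p (m + k)).S.a i = (p m).S.a i := by
      intro m k i hi
      induction k with
      | zero => rfl
      | succ k ih =>
        obtain ⟨d, -, hd⟩ := hsucp (m + k)
        rw [← ih, ← add_assoc]
        exact hd.agree i (lt_of_lt_of_le (lt_of_lt_of_le hi (hLmono m k)) hd.L_le)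
    have hγ : ∀ m k, ∀ q < (p m).nn, (p (m + k)).γ q = (p m).γ q := by
      intro m k q hq
      have hnnmono : (p m).nn ≤ (p (m + k)).nn := by
        clear hq
        induction k with
        | zero => exact le_rfl
        | succ k ih =>
          have := hnxt2 (p (m + k))
          rw [← add_assoc, hps]
          omega
      induction k with
      | zero => rfl
      | succ k ih =>
        have hnnmono' : (p m).nn ≤ (p (m + k)).nn := by
          clear hq ih hnnmono
          induction k with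
          | zero => exact le_rfl
          | succ k ih =>
            have := hnxt2 (p (m + k))
            rw [← add_assoc, hps]
            omega
        rw [← ih hnnmono', ← add_assoc, hps]
        exact hnxt3 (p (m + k)) q (lt_of_lt_of_le hq hnnmono')
    let x : ℕ → ℕ := fun i => (p (i + 1)).S.a i
    have hx : ∀ m, ∀ i < (p m).S.L, x i = (p m).S.a i := by
      intro m i hi
      rcases Nat.le_total m (i + 1) with h | h
      · obtain ⟨k, hk⟩ := Nat.exists_eq_add_of_le h
        show (p (i + 1)).S.a i = (p m).S.a i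
        rw [hk]
        exact hagree m k i hi
      · obtain ⟨k, hk⟩ := Nat.exists_eq_add_of_le h
        show (p (i + 1)).S.a i = (p m).S.a i
        rw [hk]
        exact (hagree (i + 1) k i (by have := hL (i + 1); omega)).symm
    -- the limit is in `C`
    have hxC : x ∈ C := by
      rw [r.mem]
      let g : ℕ → Ordinal.{0} := fun q => (p q).γ q
      have hg : ∀ m j, R (r.π x) m j → g m < g j := by
        intro m j hmj
        have hjm := R_lt (r.le x) hmj
        obtain ⟨y, ⟨hyC, hy⟩, hya⟩ := mem_Cl_tau.1 (p m).a_mem m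
        have hmj' : R (r.π y) m j := by
          refine (R_congr r fun i hi => ?_).1 hmj
          rw [hya i hi]
          exact hx m i (lt_of_lt_of_le hi (hL m))
        have h1 := rk_lt (r.acc hyC j) hmj'
        have h2 : r.ρ y m < r.ρ y j := h1
        rw [hy m (hnn m), hy j (hjm.trans (hnn m))] at h2
        have h3 : (p m).γ j = (p j).γ j := by
          obtain ⟨k, hk⟩ := Nat.exists_eq_add_of_le hjm.le
          have h4 := hγ j k j (hnn j)
          rw [← hk] at h4
          exact h4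
        rw [h3] at h2
        exact h2
      have hwf : WellFounded (R (r.π x)) :=
        Subrelation.wf (fun {a b} hab => hg a b hab) (InvImage.wf g wellFounded_lt)
      exact hwf.apply 0
    refine ⟨x, hxC, ?_⟩
    funext i
    rw [fn_of_states (c := c) (Θ := Θ) (S₀ := S₀) rfl (fun m => (p m).S) rfl
      (fun m => (hsucp m).imp fun d hd => hd.1) hx i]
    have hn : ∀ m, (p m).S.n = m := by
      intro m
      induction m with
      | zero => rfl
      | succ m ih =>
        obtain ⟨d, -, hd⟩ := hsucp m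
        rw [hd.n_eq, ih]
    exact (p (i + 1)).z_agree i (lt_of_lt_of_eq (Nat.lt_succ_self i) (hn (i + 1)).symm)

end Run7.h626
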