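import Mathlib
import Pool.Agent.Run7.h626.Surj

/-!
# Thin coanalytic sets
-/

set_option autoImplicit false
set_option linter.unusedSectionVars false

namespace Run7.h626

open Ordinal Cardinal MeasureTheory Set

theorem perfect_range {f : (ℕ → Bool) → (ℕ → ℕ)} (hf : Continuous f)
    (hinj : Function.Injective f) : Perfect (range f) := by
  refine ⟨(isCompact_range hf).isClosed, ?_⟩
  rintro _ ⟨a, rfl⟩
  rw [accPt_iff_nhds]
  intro U hU
  have h1 : f ⁻¹' U ∈ nhds a := hf.continuousAt hU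
  obtain ⟨V, hVU, hV, haV⟩ := mem_nhds_iff.1 h1
  obtain ⟨I, u, hu, hsub⟩ := isOpen_pi_iff.1 hV a haV
  let k := I.sup id + 1
  have ha' : Function.update a k (!(a k)) ∈ V := by
    apply hsub
    intro i hi
    have h2 : i ≤ I.sup id := Finset.le_sup (f := id) hi
    have h3 : i ≠ k := by
      show i ≠ I.sup id + 1
      omega
    rw [Function.update_of_ne h3]
    exact (hu i hi).2
  refine ⟨f (Function.update a k (!(a k))), ⟨hVU ha', mem_range_self _⟩, ?_⟩
  intro h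
  have h4 := congrFun (hinj h) k
  simp at h4

theorem exists_perfect_of_measurable {B : Set (ℕ → ℕ)} (hB : MeasurableSet B)
    (hunc : ¬ B.Countable) : ∃ K ⊆ B, K.Nonempty ∧ Perfect K := by
  obtain ⟨t, ht, hpol, hcl, -⟩ := hB.isClopenable
  obtain ⟨f, hfB, hf, hinj⟩ := @IsClosed.exists_nat_bool_injection_of_not_countable
    (ℕ → ℕ) t hpol B hcl hunc
  have hf' := continuous_le_rng ht hf
  exact ⟨range f, hfB, ⟨f (fun _ => true), mem_range_self _⟩, perfect_range hf' hinj⟩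

theorem acc_simLt {α β : Type} {r : α → α → Prop} {a : α} {s : β → β → Prop} {b : β}
    (ha : Acc r a) : SimLt r a s b ↔ ¬ (Acc s b ∧ rk s b ≤ rk r a) := by
  by_cases hb : Acc s b
  · rw [simLt_iff hb]
    constructor
    · rintro ⟨-, h⟩ ⟨-, h'⟩
      exact absurd h (not_lt.2 h')
    · intro h
      refine ⟨ha, ?_⟩
      by_contra hc
      exact h ⟨hb, not_lt.1 hc⟩
  · refine ⟨fun _ h => hb h.1, fun _ => ?_⟩
    have h1 : ∀ b, ¬ Acc s b → ∃ b', s b' b ∧ ¬ Acc s b' := by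
      intro b hb
      by_contra hc
      push Not at hc
      exact hb ⟨b, hc⟩
    obtain ⟨b', hb', hn⟩ := h1 b hb
    refine ⟨b', hb', fun _ y => ¬ Acc s y, hn, ?_⟩
    intro x y hy x' _
    exact h1 y hy

theorem meas_rk_le {P : Set (ℕ → ℕ)} (r : Rep P) {o : Ordinal.{0}} (ho : o < ω₁) :
    MeasurableSet {x | x ∈ P ∧ rk (R (r.π x)) 0 ≤ o} := by
  obtain ⟨S, j, hj, hoj⟩ := exists_rel_rk ho
  obtain ⟨a, ha, hao⟩ := exists_rk_eq hj hoj
  have h1 : {x | x ∈ P ∧ rk (R (r.π x)) 0 ≤ o} = {x | Sim (R (r.π x)) 0 S a} := by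
    ext x
    simp only [mem_ofPred_eq]
    rw [sim_iff ha, hao, r.mem]
  have h2 : {x | x ∈ P ∧ rk (R (r.π x)) 0 ≤ o}ᶜ = {x | SimLt S a (R (r.π x)) 0} := by
    ext x
    simp only [mem_compl_iff, mem_ofPred_eq]
    rw [acc_simLt ha, hao, r.mem]
  have hm : ∀ i j, MeasurableSet {x | R (r.π x) i j} := measurable_R r.continuous.measurable
  have hS : ∀ i j, MeasurableSet {x : ℕ → ℕ | S i j} := fun i j => MeasurableSet.const _
  refine AnalyticSet.measurableSet_of_compl ?_ ?_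
  · rw [h1]
    exact an_sim hm hS 0 a
  · rw [h2]
    exact an_simLt hS hm a 0

/-- A set without nonempty perfect subset. -/
def Thin (A : Set (ℕ → ℕ)) : Prop := ∀ K ⊆ A, K.Nonempty → ¬ Perfect K

theorem Thin.countable_of_measurable {A B : Set (ℕ → ℕ)} (hA : Thin A) (hBA : B ⊆ A)
    (hB : MeasurableSet B) : B.Countable := by
  by_contra hc
  obtain ⟨K, hK, hne, hp⟩ := exists_perfect_of_measurable hB hc
  exact hA K (hK.trans hBA) hne hp

/-- the relation `e` enumerates the initial segment of `A` given by `x` -/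
def EnumRel {A : Set (ℕ → ℕ)} (r : Rep A) : Set ((ℕ → ℕ) × (ℕ → ℕ)) :=
  {q | q.1 ∈ A ∧ ∀ x', (∃ k, x' = fun m => q.2 (Nat.pair k m)) ↔
    x' ∈ A ∧ rk (R (r.π x')) 0 ≤ rk (R (r.π q.1)) 0}

theorem coanalytic_enumRel {A : Set (ℕ → ℕ)} (hA : AnalyticSet Aᶜ) (r : Rep A) :
    AnalyticSet (EnumRel r)ᶜ := by
  have h1 : (EnumRel r)ᶜ = (Prod.fst ⁻¹' Aᶜ) ∪
      ({q : (ℕ → ℕ) × (ℕ → ℕ) | ∃ k, q ∈ {q : (ℕ → ℕ) × (ℕ → ℕ) |
          SimLt (R (r.π q.1)) 0 (R (r.π fun m => q.2 (Nat.pair k m))) 0}} ∪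
       {q : (ℕ → ℕ) × (ℕ → ℕ) | ∃ x', (q, x') ∈
          {p : ((ℕ → ℕ) × (ℕ → ℕ)) × (ℕ → ℕ) | Sim (R (r.π p.2)) 0 (R (r.π p.1.1)) 0} ∩
          {p | ∀ k, p ∈ {p : ((ℕ → ℕ) × (ℕ → ℕ)) × (ℕ → ℕ) |
            p.2 ≠ fun m => p.1.2 (Nat.pair k m)}}}) := by
    ext ⟨x, e⟩
    simp only [EnumRel, mem_compl_iff, mem_ofPred_eq, mem_union, mem_preimage, mem_inter_iff]
    by_cases hx : x ∈ A
    · have hacc := (r.mem x).1 hx
      simp only [hx, true_and, not_true_eq_false, false_or]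
      constructor
      · intro h
        push Not at h
        obtain ⟨x', h | h⟩ := h
        · left
          obtain ⟨⟨k, rfl⟩, h2⟩ := h
          refine ⟨k, ?_⟩
          rw [acc_simLt hacc]
          rintro ⟨h3, h4⟩
          exact absurd (h2 ((r.mem _).2 h3)) (not_lt.2 h4)
        · right
          refine ⟨x', ?_, h.1⟩
          rw [sim_iff hacc, ← r.mem]
          exact h.2
      · rintro (⟨k, hk⟩ | ⟨x', h2, h3⟩) h
        · rw [acc_simLt hacc, ← r.mem] at hk
          exact hk ((h _).1 ⟨k, rfl⟩)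
        · rw [sim_iff hacc, ← r.mem] at h2
          obtain ⟨k, hk⟩ := (h _).2 h2
          exact h3 k hk
    · simp [hx]
  rw [h1]
  refine an_union (hA.preimage continuous_fst) (an_union (an_exists_nat fun k => ?_)
    (an_exists (an_inter ?_ (an_forall_nat fun k => ?_))))
  · refine an_simLt (X := (ℕ → ℕ) × (ℕ → ℕ)) (r := fun q => R (r.π q.1))
      (s := fun q => R (r.π fun m => q.2 (Nat.pair k m))) ?_ ?_ 0 0
    · exact measurable_R (r.continuous.comp continuous_fst).measurable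
    · refine measurable_R (Continuous.measurable ?_)
      exact r.continuous.comp (by fun_prop)
  · refine an_sim (X := ((ℕ → ℕ) × (ℕ → ℕ)) × (ℕ → ℕ)) (r := fun p => R (r.π p.2))
      (s := fun p => R (r.π p.1.1)) ?_ ?_ 0 0
    · exact measurable_R (r.continuous.comp continuous_snd).measurable
    · exact measurable_R (r.continuous.comp (continuous_fst.comp continuous_fst)).measurable
  · have hcl : IsClosed {p : ((ℕ → ℕ) × (ℕ → ℕ)) × (ℕ → ℕ) |
        p.2 = fun m => p.1.2 (Nat.pair k m)} := isClosed_eq continuous_snd (by fun_prop)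
    have := hcl.measurableSet.compl.analyticSet
    exact this

end Run7.h626
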