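import Mathlib
import Pool.Agent.Run7.h626.Conv1

/-!
# The embedding of Baire space into Cantor space
-/

set_option autoImplicit false
set_option linter.unusedSectionVars false

namespace Run7.h626

open Ordinal Cardinal MeasureTheory Set

/-- the strictly increasing sequence coded by `w` -/
def inc (w : ℕ → ℕ) (i : ℕ) : ℕ := ∑ j ∈ Finset.range (i + 1), (w j + 1)

theorem inc_succ (w : ℕ → ℕ) (i : ℕ) : inc w (i + 1) = inc w i + (w (i + 1) + 1) := by
  simp [inc, Finset.sum_range_succ]

theorem inc_mono (w : ℕ → ℕ) : StrictMono (inc w) := by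
  refine strictMono_nat_of_lt_succ fun i => ?_
  rw [inc_succ]
  omega

theorem inc_zero (w : ℕ → ℕ) : inc w 0 = w 0 + 1 := by simp [inc]

theorem le_inc (w : ℕ → ℕ) (i : ℕ) : w i ≤ inc w i := by
  rcases i with _ | i
  · rw [inc_zero]
    omega
  · rw [inc_succ]
    omega

theorem inc_inj : Function.Injective inc := by
  intro w w' h
  funext i
  rcases i with _ | i
  · have := congrFun h 0
    rw [inc_zero, inc_zero] at this
    omega
  · have h1 := congrFun h i
    have h2 := congrFun h (i + 1)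
    rw [inc_succ, inc_succ] at h2
    omega

/-- The characteristic function of the range of `inc w`. -/
def Th (w : ℕ → ℕ) (n : ℕ) : ℕ := if ∃ i < n + 1, inc w i = n then 1 else 0

theorem Th_eq_one {w : ℕ → ℕ} {n : ℕ} : Th w n = 1 ↔ ∃ i, inc w i = n := by
  unfold Th
  constructor
  · intro h
    split_ifs at h with h1
    obtain ⟨i, -, hi⟩ := h1
    exact ⟨i, hi⟩
  · rintro ⟨i, hi⟩
    rw [if_pos]
    exact ⟨i, by have := (inc_mono w).le_apply (x := i); omega, hi⟩

theorem Th_le (w : ℕ → ℕ) (n : ℕ) : Th w n = 0 ∨ Th w n = 1 := by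
  unfold Th
  split_ifs
  · exact Or.inr rfl
  · exact Or.inl rfl

theorem Th_inj : Function.Injective Th := by
  intro w w' h
  apply inc_inj
  refine (StrictMono.range_inj (inc_mono w) (inc_mono w')).1 ?_
  ext n
  rw [mem_range, mem_range, ← Th_eq_one, ← Th_eq_one, h]

theorem continuous_Th : Continuous Th := by
  refine continuous_pi fun n => continuous_of_dep _ (n + 1) fun z z' h => ?_
  have h1 : ∀ i < n + 1, inc z' i = inc z i := by
    intro i hi
    unfold inc
    refine Finset.sum_congr rfl fun j hj => ?_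
    rw [Finset.mem_range] at hj
    rw [h j (by omega)]
  unfold Th
  have h2 : (∃ i < n + 1, inc z' i = n) ↔ (∃ i < n + 1, inc z i = n) := by
    constructor
    · rintro ⟨i, hi, h3⟩
      exact ⟨i, hi, by rw [← h1 i hi]; exact h3⟩
    · rintro ⟨i, hi, h3⟩
      exact ⟨i, hi, by rw [h1 i hi]; exact h3⟩
  simp only [h2]

/-- the characteristic function of a finite set -/
def fin01 (s : Finset ℕ) (n : ℕ) : ℕ := if n ∈ s then 1 else 0

theorem Th_notMem (w : ℕ → ℕ) : Th w ∉ range fin01 := by
  rintro ⟨s, hs⟩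
  have h1 : ∀ i, inc w i ∈ s := by
    intro i
    have h2 : Th w (inc w i) = 1 := Th_eq_one.2 ⟨i, rfl⟩
    rw [← hs] at h2
    unfold fin01 at h2
    split_ifs at h2 with h3
    exact h3
  have h3 : (range (inc w)).Finite := by
    refine s.finite_toSet.subset ?_
    rintro _ ⟨i, rfl⟩
    exact h1 i
  exact (Set.infinite_range_of_injective (inc_mono w).injective) h3

/-- the number of ones below `N` -/
def cnt (z : ℕ → ℕ) (N : ℕ) : ℕ := ((Finset.range N).filter fun n => z n = 1).card

theorem cnt_mono (z : ℕ → ℕ) : Monotone (cnt z) := by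
  intro N M h
  refine Finset.card_le_card ?_
  intro n hn
  simp only [Finset.mem_filter, Finset.mem_range] at hn ⊢
  exact ⟨by omega, hn.2⟩

theorem isOpen_cnt (N i : ℕ) : IsOpen {z : ℕ → ℕ | i < cnt z N} := by
  have h1 : Continuous fun z : ℕ → ℕ => cnt z N := by
    refine continuous_of_dep _ N fun z z' h => ?_
    unfold cnt
    congr 1
    ext n
    simp only [Finset.mem_filter, Finset.mem_range]
    constructor
    · rintro ⟨hn, h2⟩
      exact ⟨hn, by rw [← h n hn]; exact h2⟩
    · rintro ⟨hn, h2⟩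
      exact ⟨hn, by rw [h n hn]; exact h2⟩
  exact isOpen_lt continuous_const h1

theorem cnt_unbounded {z : ℕ → ℕ} (hz : ∀ n, z n = 0 ∨ z n = 1) (hzf : z ∉ range fin01) (i : ℕ) :
    ∃ N, i < cnt z N := by
  have hinf : {n | z n = 1}.Infinite := by
    intro hfin
    apply hzf
    refine ⟨hfin.toFinset, ?_⟩
    funext n
    unfold fin01
    simp only [Finite.mem_toFinset, mem_ofPred_eq]
    rcases hz n with h | h
    · rw [h]
      simp
    · rw [h]
      simp
  obtain ⟨t, ht, hc⟩ := hinf.exists_subset_card_eq (i + 1)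
  refine ⟨t.sup id + 1, ?_⟩
  have : t.card ≤ cnt z (t.sup id + 1) := by
    refine Finset.card_le_card ?_
    intro n hn
    simp only [Finset.mem_filter, Finset.mem_range]
    have h2 : n ≤ t.sup id := Finset.le_sup (f := id) hn
    exact ⟨by omega, ht hn⟩
  omega

theorem inc_lt_of_cnt {w : ℕ → ℕ} {N i : ℕ} (h : i < cnt (Th w) N) : inc w i < N := by
  by_contra hc
  rw [not_lt] at hc
  have h1 : ((Finset.range N).filter fun n => Th w n = 1) ⊆ (Finset.range i).image (inc w) := by
    intro n hn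
    simp only [Finset.mem_filter, Finset.mem_range, Finset.mem_image] at hn ⊢
    obtain ⟨hn, h2⟩ := hn
    obtain ⟨j, rfl⟩ := Th_eq_one.1 h2
    exact ⟨j, (inc_mono w).lt_iff_lt.1 (by omega), rfl⟩
  have h2 := Finset.card_le_card h1
  have h3 := Finset.card_image_le (s := Finset.range i) (f := inc w)
  rw [Finset.card_range] at h3
  unfold cnt at h
  omega

/-- **Compactness**: an open set that contains the finite sets contains all `Th w` such that `inc w`
is not bounded by a fixed function. -/
theorem exists_bound {U : Set (ℕ → ℕ)} (hU : IsOpen U) (hfin : range fin01 ⊆ U) :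
    ∃ b : ℕ → ℕ, ∀ w, Th w ∉ U → ∀ i, inc w i ≤ b i := by
  have hcomp : IsCompact {z : ℕ → ℕ | ∀ n, z n = 0 ∨ z n = 1} := by
    have : {z : ℕ → ℕ | ∀ n, z n = 0 ∨ z n = 1} = Set.pi univ fun _ => ({0, 1} : Set ℕ) := by
      ext z
      simp
    rw [this]
    exact isCompact_univ_pi fun _ => (Set.toFinite _).isCompact
  have hL : IsCompact ({z : ℕ → ℕ | ∀ n, z n = 0 ∨ z n = 1} ∩ Uᶜ) := hcomp.inter_right hU.isClosed_compl
  have key : ∀ i, ∃ N, ({z : ℕ → ℕ | ∀ n, z n = 0 ∨ z n = 1} ∩ Uᶜ) ⊆ {z | i < cnt z N} := by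
    intro i
    refine hL.elim_directed_cover (fun N => {z : ℕ → ℕ | i < cnt z N}) (fun N => isOpen_cnt N i) ?_ ?_
    · rintro z ⟨hz, hzU⟩
      have : z ∉ range fin01 := fun h => hzU (hfin h)
      obtain ⟨N, hN⟩ := cnt_unbounded hz this i
      exact mem_iUnion.2 ⟨N, hN⟩
    · refine directed_of_isDirected_le ?_
      intro N M h z hz
      exact lt_of_lt_of_le hz (cnt_mono z h)
  choose b hb using key
  refine ⟨b, fun w hw i => ?_⟩
  have h1 : Th w ∈ {z | i < cnt z (b i)} := hb i ⟨Th_le w, hw⟩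
  exact (inc_lt_of_cnt h1).le

end Run7.h626
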