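import Mathlib
import Pool.Agent.Run7.h626.Conv2

/-!
# Hjorth's hypothesis for Baire space implies the perfect set property for coanalytic sets
-/

set_option autoImplicit false
set_option linter.unusedSectionVars false

namespace Run7.h626

open Ordinal Cardinal MeasureTheory Set

theorem exists_shift_notMem (c : ℕ → ℕ) {S : Set (ℕ → ℕ)} (hS : S.Countable) :
    ∃ s : ℕ → ℕ, (fun n => c n + 1 + s n) ∉ S := by
  have h4 : #(ℕ → ℕ) = Cardinal.continuum := by simp
  by_contra hc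
  push Not at hc
  have h1 : (range fun s : ℕ → ℕ => fun n => c n + 1 + s n).Countable := by
    refine hS.mono ?_
    rintro _ ⟨s, rfl⟩
    exact hc s
  have hinj : Function.Injective fun s : ℕ → ℕ => fun n => c n + 1 + s n := by
    intro s s' h
    funext n
    have := congrFun h n
    simp only at this
    omega
  have h2 : Countable (ℕ → ℕ) := by
    have := h1.to_subtype
    exact Function.Injective.countable
      (f := fun s : ℕ → ℕ => (⟨fun n => c n + 1 + s n, mem_range_self s⟩ :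
        range fun s : ℕ → ℕ => fun n => c n + 1 + s n))
      fun x y h => hinj (congrArg Subtype.val h)
  have h3 : #(ℕ → ℕ) ≤ ℵ₀ := Cardinal.mk_le_aleph0
  rw [h4] at h3
  exact absurd Cardinal.aleph0_lt_continuum (not_lt.2 h3)

/-- Hjorth's hypothesis for the target space `ℕ → ℕ`. -/
def HU (D : Type*) [TopologicalSpace D] : Prop :=
  ∀ C : Set (ℕ → ℕ), AnalyticSet Cᶜ → ¬ MeasurableSet C →
    ∃ f : ↥C ⊕ D → (ℕ → ℕ), Continuous f ∧ Function.Surjective f

theorem graph_closure {A : Set (ℕ → ℕ)} {g : A → (ℕ → ℕ)} (hg : Continuous g)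
    (x : ℕ → ℕ) (hx : x ∈ A) (y : ℕ → ℕ) :
    (x, y) ∈ closure (range fun x : A => ((x : ℕ → ℕ), g x)) ↔ y = g ⟨x, hx⟩ := by
  constructor
  · intro h
    obtain ⟨u, hu, hlim⟩ := mem_closure_iff_seq_limit.1 h
    choose v hv using hu
    have h1 : Filter.Tendsto (fun n => ((v n : A) : ℕ → ℕ)) Filter.atTop (nhds x) := by
      have := (continuous_fst.tendsto (x, y)).comp hlim
      refine this.congr fun n => ?_
      simp [← hv n]
    have h2 : Filter.Tendsto (fun n => g (v n)) Filter.atTop (nhds y) := by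
      have := (continuous_snd.tendsto (x, y)).comp hlim
      refine this.congr fun n => ?_
      simp [← hv n]
    have h3 : Filter.Tendsto v Filter.atTop (nhds ⟨x, hx⟩) := tendsto_subtype_rng.2 h1
    exact tendsto_nhds_unique h2 ((hg.tendsto _).comp h3)
  · rintro rfl
    exact subset_closure ⟨⟨x, hx⟩, rfl⟩

/-- first component -/
def dX (w : ℕ → ℕ) (n : ℕ) : ℕ := w (2 * n)
/-- second component -/
def dE (w : ℕ → ℕ) (n : ℕ) : ℕ := w (2 * (2 * n) + 1)
/-- third component -/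
def dG (w : ℕ → ℕ) (n : ℕ) : ℕ := w (2 * (2 * n + 1) + 1)
/-- rows -/
def row (e : ℕ → ℕ) (k n : ℕ) : ℕ := e (Nat.pair k n)

theorem continuous_dX : Continuous dX := by unfold dX; fun_prop
theorem continuous_dE : Continuous dE := by unfold dE; fun_prop
theorem continuous_dG : Continuous dG := by unfold dG; fun_prop
theorem continuous_row (k : ℕ) : Continuous fun e => row e k := by unfold row; fun_prop

theorem dX_inter (x y : ℕ → ℕ) : dX (inter x y) = x := by
  funext n
  exact inter_even _ _ _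
theorem dE_inter (x e g : ℕ → ℕ) : dE (inter x (inter e g)) = e := by
  funext n
  unfold dE
  rw [inter_odd, inter_even]
theorem dG_inter (x e g : ℕ → ℕ) : dG (inter x (inter e g)) = g := by
  funext n
  unfold dG
  rw [inter_odd, inter_odd]

theorem ext_dec {w w' : ℕ → ℕ} (h1 : dX w = dX w') (h2 : dE w = dE w') (h3 : dG w = dG w') :
    w = w' := by
  funext n
  rcases Nat.even_or_odd' n with ⟨k, rfl | rfl⟩
  · exact congrFun h1 k
  · rcases Nat.even_or_odd' k with ⟨l, rfl | rfl⟩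
    · exact congrFun h2 l
    · exact congrFun h3 l

theorem psp_of_HU {D : Type*} [TopologicalSpace D] [Countable D] (h : HU D) : PSP := by
  by_contra hpsp
  unfold PSP at hpsp
  push Not at hpsp
  obtain ⟨A, hA, hAunc, hthin⟩ := hpsp
  have hthin : Thin A := hthin
  obtain ⟨r⟩ := exists_rep hA
  have hAnm : ¬ MeasurableSet A := fun hm => hAunc (hthin.countable_of_measurable subset_rfl hm)
  have hAo : ∀ x : ℕ → ℕ, {x' | x' ∈ A ∧ rk (R (r.π x')) 0 ≤ rk (R (r.π x)) 0}.Countable :=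
    fun x => hthin.countable_of_measurable (fun _ h => h.1) (meas_rk_le r (rk_lt_omega1 _ _))
  obtain ⟨f, hf, hfs⟩ := h A hA hAnm
  obtain ⟨g, hg, hmiss⟩ : ∃ g : A → (ℕ → ℕ), Continuous g ∧ (range g)ᶜ.Countable := by
    refine ⟨fun x => f (Sum.inl x), hf.comp continuous_inl, ?_⟩
    refine (countable_range (fun d => f (Sum.inr d))).mono ?_
    intro y hy
    obtain ⟨t, rfl⟩ := hfs y
    rcases t with x | d
    · exact absurd ⟨x, rfl⟩ hy
    · exact ⟨d, rfl⟩
  obtain ⟨K, hKc, hK⟩ : ∃ K : Set ((ℕ → ℕ) × (ℕ → ℕ)), IsClosed K ∧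
      ∀ x (hx : x ∈ A) y, (x, y) ∈ K ↔ y = g ⟨x, hx⟩ :=
    ⟨_, isClosed_closure, graph_closure hg⟩
  obtain ⟨Q', hQ'Q, hQ', huniq, hex⟩ := kondo (coanalytic_enumRel hA r)
  -- the set `A2`
  let A2 : Set (ℕ → ℕ) := {w | (dX w, dE w) ∈ Q' ∧ ∀ k, (row (dE w) k, row (dG w) k) ∈ K}
  have hA2Q : ∀ w ∈ A2, dX w ∈ A ∧ ∀ x', (∃ k, x' = row (dE w) k) ↔
      x' ∈ A ∧ rk (R (r.π x')) 0 ≤ rk (R (r.π (dX w))) 0 := fun w hw => hQ'Q hw.1
  have hrow : ∀ w ∈ A2, ∀ k, row (dE w) k ∈ A := fun w hw k =>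
    (((hA2Q w hw).2 _).1 ⟨k, rfl⟩).1
  have hA2an : AnalyticSet A2ᶜ := by
    have h1 : A2ᶜ = (fun w => (dX w, dE w)) ⁻¹' Q'ᶜ ∪
        (⋂ k, (fun w => (row (dE w) k, row (dG w) k)) ⁻¹' K)ᶜ := by
      ext w
      simp only [A2, mem_compl_iff, mem_ofPred_eq, mem_union, mem_preimage, mem_iInter]
      rw [not_and_or]
    rw [h1]
    refine an_union (hQ'.preimage (continuous_dX.prodMk continuous_dE)) ?_
    have h2 : IsClosed (⋂ k, (fun w => (row (dE w) k, row (dG w) k)) ⁻¹' K) :=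
      isClosed_iInter fun k => hKc.preimage
        (((continuous_row k).comp continuous_dE).prodMk ((continuous_row k).comp continuous_dG))
    exact h2.measurableSet.compl.analyticSet
  have hinj : InjOn dX A2 := by
    intro w hw w' hw' hww
    have h1 : dE w = dE w' := by
      have h3 : (dX w, dE w) ∈ Q' := hw.1
      have h4 : (dX w', dE w') ∈ Q' := hw'.1
      rw [← hww] at h4
      exact huniq _ _ _ h3 h4
    refine ext_dec hww h1 ?_
    funext n
    have h5 := (hK _ (hrow w hw n.unpair.1) _).1 (hw.2 n.unpair.1)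
    have h6 := hw'.2 n.unpair.1
    rw [← h1] at h6
    have h7 := (hK _ (hrow w hw n.unpair.1) _).1 h6
    have h8 := congrFun (h5.trans h7.symm) n.unpair.2
    unfold row at h8
    rwa [Nat.pair_unpair] at h8
  have hsurj : dX '' A2 = A := by
    apply Subset.antisymm
    · rintro _ ⟨w, hw, rfl⟩
      exact (hA2Q w hw).1
    · intro x hx
      obtain ⟨e0, he0⟩ : ∃ e0 : ℕ → (ℕ → ℕ),
          {x' | x' ∈ A ∧ rk (R (r.π x')) 0 ≤ rk (R (r.π x)) 0} = range e0 :=
        (hAo x).exists_eq_range ⟨x, hx, le_rfl⟩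
      have h1 : (x, fun n => e0 n.unpair.1 n.unpair.2) ∈ EnumRel r := by
        refine ⟨hx, fun x' => ?_⟩
        have h2 : x' ∈ {x' | x' ∈ A ∧ rk (R (r.π x')) 0 ≤ rk (R (r.π x)) 0} ↔ x' ∈ range e0 := by
          rw [he0]
        rw [mem_ofPred_eq] at h2
        simp only [Nat.unpair_pair]
        rw [h2]
        constructor
        · rintro ⟨k, rfl⟩
          exact ⟨k, rfl⟩
        · rintro ⟨k, rfl⟩
          exact ⟨k, rfl⟩
      obtain ⟨e, he⟩ := hex x _ h1
      have h3 : ∀ k, row e k ∈ A := fun k => (((hQ'Q he).2 _).1 ⟨k, rfl⟩).1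
      refine ⟨inter x (inter e fun n => g ⟨row e n.unpair.1, h3 _⟩ n.unpair.2), ⟨?_, fun k => ?_⟩,
        dX_inter _ _⟩
      · rw [dX_inter, dE_inter]
        exact he
      · rw [dE_inter, dG_inter, hK _ (h3 k)]
        funext m
        unfold row
        simp only [Nat.unpair_pair]
  -- the set `H`
  let H0 : Set (ℕ → ℕ) := Th '' A2
  let H : Set (ℕ → ℕ) := H0 ∪ range fin01
  have hQ0 : (range fin01).Countable := countable_range _
  have hdisj : ∀ z ∈ H0, z ∉ range fin01 := by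
    rintro _ ⟨w, -, rfl⟩
    exact Th_notMem w
  have hHan : AnalyticSet Hᶜ := by
    have h1 : Hᶜ = ((range Th)ᶜ ∪ Th '' A2ᶜ) ∩ (range fin01)ᶜ := by
      ext z
      simp only [H, H0, compl_union, mem_inter_iff, mem_union]
      refine and_congr_left fun _ => ?_
      constructor
      · intro hz
        by_cases h2 : z ∈ range Th
        · obtain ⟨w, rfl⟩ := h2
          exact Or.inr ⟨w, fun hw => hz ⟨w, hw, rfl⟩, rfl⟩
        · exact Or.inl h2
      · rintro (h2 | ⟨w, hw, rfl⟩)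
        · rintro ⟨w, -, rfl⟩
          exact h2 ⟨w, rfl⟩
        · rintro ⟨w', hw', hww⟩
          rw [Th_inj hww] at hw'
          exact hw hw'
    rw [h1]
    refine an_inter (an_union ?_ (hA2an.image_of_continuous continuous_Th)) ?_
    · exact (measurableSet_range_of_continuous_injective continuous_Th Th_inj).compl.analyticSet
    · exact hQ0.measurableSet.compl.analyticSet
  have hHnm : ¬ MeasurableSet H := by
    intro hm
    apply hAnm
    have h1 : A2 = Th ⁻¹' (H \ range fin01) := by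
      ext w
      constructor
      · intro hw
        exact ⟨Or.inl ⟨w, hw, rfl⟩, Th_notMem w⟩
      · rintro ⟨h2 | h2, h3⟩
        · obtain ⟨w', hw', hww⟩ := h2
          rw [← Th_inj hww]
          exact hw'
        · exact absurd h2 h3
    have h2 : MeasurableSet A2 := by
      rw [h1]
      exact continuous_Th.measurable (hm.diff hQ0.measurableSet)
    rw [← hsurj]
    exact h2.image_of_continuousOn_injOn continuous_dX.continuousOn hinj
  obtain ⟨F, hF, hFs⟩ := h H hHan hHnm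
  -- enumeration of the countable part
  obtain ⟨φ, hφ⟩ := exists_surjective_nat (Finset ℕ ⊕ D)
  let e : Finset ℕ ⊕ D → ↥H ⊕ D := Sum.map (fun s => ⟨fin01 s, Or.inr ⟨s, rfl⟩⟩) id
  let c : ℕ → ℕ := fun n => F (e (φ n)) n
  let O : Set (ℕ → ℕ) := {y | ∃ n, y n = c n}
  have hO : IsOpen O := by
    have : O = ⋃ n, {y : ℕ → ℕ | y n = c n} := by
      ext y
      simp [O]
    rw [this]
    refine isOpen_iUnion fun n => ?_
    exact (isOpen_discrete ({c n} : Set ℕ)).preimage
      (continuous_apply n : Continuous fun z' : ℕ → ℕ => z' n)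
  obtain ⟨U, hU, hUO⟩ := isOpen_induced_iff.1 (hO.preimage (hF.comp continuous_inl))
  have hUO' : ∀ z (hz : z ∈ H), z ∈ U ↔ F (Sum.inl ⟨z, hz⟩) ∈ O := by
    intro z hz
    have : (⟨z, hz⟩ : H) ∈ Subtype.val ⁻¹' U ↔ (⟨z, hz⟩ : H) ∈ (F ∘ Sum.inl) ⁻¹' O := by
      rw [hUO]
    exact this
  have hfinU : range fin01 ⊆ U := by
    rintro _ ⟨s, rfl⟩
    rw [hUO' _ (Or.inr ⟨s, rfl⟩)]
    obtain ⟨n, hn⟩ := hφ (Sum.inl s)
    refine ⟨n, ?_⟩
    simp only [c, hn]
    rfl
  obtain ⟨b, hb⟩ := exists_bound hU hfinU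
  obtain ⟨s, hs⟩ := exists_shift_notMem (fun m => b (2 * (2 * Nat.pair m m + 1) + 1)) hmiss
  rw [notMem_compl_iff] at hs
  obtain ⟨⟨x0, hx0⟩, hgx0⟩ := hs
  have hcount : {w | w ∈ A2 ∧ Th w ∉ U}.Countable := by
    refine countable_of_injective_of_countable_image
      (hinj.mono fun w hw => hw.1) ((hAo x0).mono ?_)
    rintro _ ⟨w, ⟨hw, hwU⟩, rfl⟩
    refine ⟨(hA2Q w hw).1, ?_⟩
    by_contra hc
    rw [not_le] at hc
    obtain ⟨k, hk⟩ := ((hA2Q w hw).2 x0).2 ⟨hx0, hc.le⟩
    have h1 := hw.2 k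
    rw [← hk, hK x0 hx0, hgx0] at h1
    have h2 := congrFun h1 k
    have h3 : row (dG w) k k = w (2 * (2 * Nat.pair k k + 1) + 1) := rfl
    have h4 := hb w hwU (2 * (2 * Nat.pair k k + 1) + 1)
    have h5 := le_inc w (2 * (2 * Nat.pair k k + 1) + 1)
    omega
  classical
  let F' : (ℕ → ℕ) → (ℕ → ℕ) := fun w => if hw : Th w ∈ H then F (Sum.inl ⟨Th w, hw⟩) else 0
  obtain ⟨t, ht⟩ := exists_shift_notMem c (hcount.image F')
  apply ht
  obtain ⟨p, hp⟩ := hFs (fun n => c n + 1 + t n)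
  have hpO : F p ∉ O := by
    rintro ⟨n, hn⟩
    rw [hp] at hn
    have hn' : c n + 1 + t n = c n := hn
    omega
  have hpe : ∀ i, p ≠ e i := by
    rintro i rfl
    obtain ⟨n, rfl⟩ := hφ i
    exact hpO ⟨n, rfl⟩
  rcases p with ⟨z, hz⟩ | d
  · rcases id hz with h1 | h1
    · obtain ⟨w, hw, rfl⟩ := h1
      refine ⟨w, ⟨hw, ?_⟩, ?_⟩
      · intro hwU
        exact hpO ((hUO' _ hz).1 hwU)
      · simp only [F']
        rw [dif_pos hz, hp]
    · obtain ⟨s', rfl⟩ := h1
      exact absurd rfl (hpe (Sum.inl s'))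
  · exact absurd rfl (hpe (Sum.inr d))

end Run7.h626
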